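import Pool.Agent.H93.EF.General
import Pool.Agent.H93.EF.SmallD

set_option autoImplicit false

open Finset

namespace Pool.Agent.H90.EF

open Pool.Agent.H93.EF

/-- Removing the last element from the members containing it: the union bound drops by `k`. -/
theorem KU_last {n k d : ℕ} (hk : 0 < k) (hdn : d ≤ n) {F : Finset (Finset ℕ)}
    (hFn : F ⊆ (range (n + 1)).powerset) (hK : KU k d F) (hS : Shifted F)
    (f : Fin k → Finset ℕ) (hf : ∀ j, n ∉ f j ∧ insert n (f j) ∈ F) :
    (univ.biUnion f).card + k ≤ d := by
  classical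
  set U := univ.biUnion f with hU
  have hUn : U ⊆ range n := by
    intro x hx
    rw [hU, mem_biUnion] at hx
    obtain ⟨j, -, hj⟩ := hx
    have h1 := mem_powerset.mp (hFn (hf j).2) (mem_insert_of_mem hj)
    rw [mem_range] at h1 ⊢
    have : x ≠ n := by rintro rfl; exact (hf j).1 hj
    omega
  set W := range n \ U with hW
  have hWc : W.card + U.card = n := by
    rw [hW, card_sdiff_add_card_eq_card hUn, card_range]
  obtain ⟨Q, hQW, hQc⟩ := exists_subset_card_eq (s := W) (n := min (k - 1) W.card) (min_le_right _ _)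
  set q := Q.card with hq
  have hqk : q < k := by omega
  let e := Q.equivFin
  have hQn : ∀ x ∈ Q, x < n ∧ x ∉ U := by
    intro x hx
    have := hQW hx
    rw [hW, mem_sdiff, mem_range] at this
    exact this
  set h : Fin k → Finset ℕ := fun j =>
    if hj : j.val < q then insert (e.symm ⟨j.val, hj⟩ : ℕ) (f j) else insert n (f j) with hh
  have hhF : ∀ j, h j ∈ F := by
    intro j
    rw [hh]
    by_cases hj : j.val < q
    · simp only [hj, dif_pos]
      have hx := (e.symm ⟨j.val, hj⟩).2
      obtain ⟨hx1, hx2⟩ := hQn _ hx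
      have hxf : (e.symm ⟨j.val, hj⟩ : ℕ) ∉ insert n (f j) := by
        rw [mem_insert, not_or]
        refine ⟨hx1.ne, fun hc => hx2 ?_⟩
        rw [hU, mem_biUnion]
        exact ⟨j, mem_univ _, hc⟩
      have := hS _ (hf j).2 _ n hx1 (mem_insert_self _ _) hxf
      rwa [erase_insert (hf j).1] at this
    · simp only [hj, dif_neg, not_false_eq_true]
      exact (hf j).2
  have hcard := hK h hhF
  have hsub : insert n (U ∪ Q) ⊆ univ.biUnion h := by
    intro x hx
    rw [mem_insert, mem_union] at hx
    rw [mem_biUnion]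
    rcases hx with rfl | hx | hx
    · refine ⟨⟨q, hqk⟩, mem_univ _, ?_⟩
      rw [hh]
      simp
    · rw [hU, mem_biUnion] at hx
      obtain ⟨j, -, hj⟩ := hx
      refine ⟨j, mem_univ _, ?_⟩
      rw [hh]
      by_cases hjq : j.val < q
      · simp only [hjq, dif_pos]; exact mem_insert_of_mem hj
      · simp only [hjq, dif_neg, not_false_eq_true]; exact mem_insert_of_mem hj
    · have hlt : (e ⟨x, hx⟩).val < q := (e ⟨x, hx⟩).2
      refine ⟨⟨(e ⟨x, hx⟩).val, by omega⟩, mem_univ _, ?_⟩
      rw [hh]
      simp only [hlt, dif_pos]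
      have : e.symm ⟨(e ⟨x, hx⟩).val, hlt⟩ = ⟨x, hx⟩ := by
        have h1 : (⟨(e ⟨x, hx⟩).val, hlt⟩ : Fin q) = e ⟨x, hx⟩ := Fin.ext rfl
        rw [h1, Equiv.symm_apply_apply]
      rw [this]
      exact mem_insert_self _ _
  have h1 := card_le_card hsub
  have hdis : Disjoint U Q := by
    rw [disjoint_left]
    intro x h1 h2
    exact (hQn x h2).2 h1
  have hn' : n ∉ U ∪ Q := by
    rw [mem_union, not_or]
    refine ⟨fun hc => ?_, fun hc => ?_⟩
    · have := hUn hc; simp at this
    · exact (hQn n hc).1.ne rfl
  rw [card_insert_of_notMem hn', card_union_of_disjoint hdis] at h1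
  omega

/-- `p(n+1,k,d) ≤ p(n,k,d) + p(n,k,d-k)` for `k ≤ d ≤ n`. -/
theorem p_rec {n k d : ℕ} (hk : 0 < k) (hkd : k ≤ d) (hdn : d ≤ n) :
    p (n + 1) k d ≤ p n k d + p n k (d - k) := by
  classical
  obtain ⟨F, hFn, hFK, hFc, hFD, hFS, -⟩ := exists_opt (n + 1) k d
  rw [← hFc, ← card_filter_add_card_filter_not (s := F) (fun D => n ∉ D)]
  refine Nat.add_le_add ?_ ?_
  · refine card_le_p ?_ (hFK.mono (filter_subset _ _))
    intro D hD
    rw [mem_filter] at hD
    have h1 := mem_powerset.mp (hFn hD.1)
    rw [mem_powerset]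
    intro x hx
    have h2 := h1 hx
    rw [mem_range] at h2 ⊢
    have : x ≠ n := by rintro rfl; exact hD.2 hx
    omega
  · set G := (F.filter (fun D => ¬ n ∉ D)).image (fun D => D.erase n) with hG
    have hGmem : ∀ E, E ∈ G ↔ n ∉ E ∧ insert n E ∈ F := by
      intro E
      rw [hG, mem_image]
      constructor
      · rintro ⟨D, hD, rfl⟩
        rw [mem_filter, not_not] at hD
        refine ⟨by simp, ?_⟩
        rw [insert_erase hD.2]
        exact hD.1
      · rintro ⟨h1, h2⟩
        refine ⟨insert n E, ?_, by rw [erase_insert h1]⟩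
        rw [mem_filter, not_not]
        exact ⟨h2, mem_insert_self _ _⟩
    have hGc : G.card = (F.filter (fun D => ¬ n ∉ D)).card := by
      refine card_image_of_injOn ?_
      intro D hD E hE h
      have hD' := mem_coe.mp hD
      have hE' := mem_coe.mp hE
      rw [mem_filter, not_not] at hD' hE'
      have h' : D.erase n = E.erase n := h
      rw [← insert_erase hD'.2, h', insert_erase hE'.2]
    rw [← hGc]
    refine card_le_p ?_ ?_
    · intro E hE
      obtain ⟨h1, h2⟩ := (hGmem E).mp hE
      have h3 := mem_powerset.mp (hFn h2)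
      rw [mem_powerset]
      intro x hx
      have h4 := h3 (mem_insert_of_mem hx)
      rw [mem_range] at h4 ⊢
      have : x ≠ n := by rintro rfl; exact h1 hx
      omega
    · intro f hf
      have := KU_last hk hdn hFn hFK hFS f (fun j => (hGmem _).mp (hf j))
      omega

/-- partial row sums of Pascal's triangle -/
def bs (n s : ℕ) : ℕ := ∑ j ∈ range (s + 1), n.choose j

theorem bs_succ (n s : ℕ) : bs (n + 1) (s + 1) = bs n (s + 1) + bs n s := by
  unfold bs
  rw [sum_range_succ' (fun j => (n + 1).choose j) (s + 1)]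
  simp only [Nat.choose_succ_succ, sum_add_distrib, Nat.choose_zero_right]
  have := sum_range_succ' (fun j => n.choose j) (s + 1)
  simp only [Nat.choose_zero_right] at this
  simp only [Nat.succ_eq_add_one] at this ⊢
  omega

/-- The trivial bound. -/
theorem p_le_two_pow (n k d : ℕ) : p n k d ≤ 2 ^ n := by
  obtain ⟨F, hFn, -, hFc⟩ := exists_card_eq_p n k d
  rw [← hFc]
  calc F.card ≤ (range n).powerset.card := card_le_card hFn
    _ = 2 ^ n := by rw [card_powerset, card_range]

/-- Two members cover the ground set for no pair: the family is at most half. -/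
theorem p_two_base (s : ℕ) : p (2 * s + 1) 2 (2 * s) ≤ 2 ^ (2 * s) := by
  classical
  obtain ⟨F, hFn, hFK, hFc⟩ := exists_card_eq_p (2 * s + 1) 2 (2 * s)
  set G := F.image (fun D => range (2 * s + 1) \ D) with hG
  have hinj : Set.InjOn (fun D : Finset ℕ => range (2 * s + 1) \ D) F := by
    intro D hD E hE h
    have h1 := mem_powerset.mp (hFn hD)
    have h2 := mem_powerset.mp (hFn hE)
    have h' : range (2 * s + 1) \ D = range (2 * s + 1) \ E := h
    rw [← Finset.sdiff_sdiff_eq_self h1, h', Finset.sdiff_sdiff_eq_self h2]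
  have hGc : G.card = F.card := card_image_of_injOn hinj
  have hdis : Disjoint F G := by
    rw [disjoint_left]
    intro D h1 h2
    rw [hG, mem_image] at h2
    obtain ⟨E, hE, hED⟩ := h2
    have h3 := hFK ![D, E] (by intro j; fin_cases j; exacts [h1, hE])
    have h4 : range (2 * s + 1) ⊆ univ.biUnion ![D, E] := by
      intro x hx
      rw [mem_biUnion]
      by_cases hxE : x ∈ E
      · exact ⟨1, mem_univ _, hxE⟩
      · refine ⟨0, mem_univ _, ?_⟩
        change x ∈ D
        rw [← hED]
        exact mem_sdiff.mpr ⟨hx, hxE⟩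
    have h5 := card_le_card h4
    rw [card_range] at h5
    omega
  have hsub : F ∪ G ⊆ (range (2 * s + 1)).powerset := by
    intro D hD
    rw [mem_union] at hD
    rcases hD with h | h
    · exact hFn h
    · rw [hG, mem_image] at h
      obtain ⟨E, _, rfl⟩ := h
      exact mem_powerset.mpr sdiff_subset
  have h1 := card_le_card hsub
  rw [card_union_of_disjoint hdis, hGc, card_powerset, card_range, hFc, pow_succ] at h1
  omega

theorem bs_half (s : ℕ) : bs (2 * s + 1) s = 4 ^ s := by
  unfold bs
  exact Nat.sum_range_choose_halfway s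

/-- Katona's theorem. -/
theorem p_two_le : ∀ n s : ℕ, 2 * s + 1 ≤ n → p n 2 (2 * s) ≤ bs n s := by
  intro n
  induction n with
  | zero => intro s hs; omega
  | succ n ih =>
    intro s hs
    rcases Nat.lt_or_ge n (2 * s + 1) with h | h
    · have hn : n = 2 * s := by omega
      subst hn
      have h1 := p_two_base s
      have h2 := bs_half s
      rw [h2]
      rw [pow_mul] at h1
      exact h1
    · cases s with
      | zero =>
        have h1 := p_zero (n := n + 1) (k := 2) (by norm_num)
        refine le_trans h1 ?_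
        simp [bs]
      | succ s =>
        have h1 := p_rec (n := n) (k := 2) (d := 2 * (s + 1)) (by norm_num)
          (by omega) (by omega)
        have h2 := ih (s + 1) (by omega)
        have h3 := ih s (by omega)
        have h4 : 2 * (s + 1) - 2 = 2 * s := by omega
        rw [h4] at h1
        rw [bs_succ]
        omega

theorem conj_two {n s : ℕ} (hn : 2 * s ≤ n) : p n 2 (2 * s) ≤ conj n 2 (2 * s) := by
  rcases Nat.eq_or_lt_of_le hn with h | h
  · subst h
    refine (p_le_two_pow _ _ _).trans ?_
    have := le_conj (n := 2 * s) (k := 2) (d := 2 * s) (i := 0) (by norm_num) (by omega)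
    simpa using this
  · refine (p_two_le n s h).trans ?_
    have := le_conj (n := n) (k := 2) (d := 2 * s) (i := s) (by norm_num) le_rfl
    simp only [Nat.sub_self, pow_zero, one_mul] at this
    rw [Nat.sub_add_cancel hn] at this
    exact this

/-- The case `k = 2` (Katona) for all `n` and `d`. -/
theorem p_two_all {n d : ℕ} (hdn : d ≤ n) : p n 2 d ≤ conj n 2 d := by
  have hd : d = 2 * (d / 2) + d % 2 := (Nat.div_add_mod d 2).symm
  have hr : d % 2 < 2 := Nat.mod_lt _ (by norm_num)
  have hn : n = (n - d % 2) + d % 2 := by omega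
  rw [hd, hn]
  have := le_conj_of_mul (k := 2) (by norm_num) (m := n - d % 2) (s := d / 2) hr
    (conj_two (by omega))
  simpa using this

/-- The case `k = 1`. -/
theorem p_one_all {n d : ℕ} (hdn : d ≤ n) : p n 1 d ≤ conj n 1 d := by
  classical
  obtain ⟨F, hFn, hFK, hFc⟩ := exists_card_eq_p n 1 d
  have h1 : F ⊆ (range n).powerset.filter (fun D => D.card ≤ d) := by
    intro D hD
    rw [mem_filter]
    refine ⟨hFn hD, ?_⟩
    have := hFK (fun _ => D) (fun _ => hD)
    simpa using this
  have h2 := card_le_card h1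
  rw [card_powerset_filter_card_le, card_range] at h2
  have := le_conj (n := n) (k := 1) (d := d) (i := d) (by norm_num) (by omega)
  rw [← hFc]
  refine h2.trans ?_
  have e1 : d - 1 * d = 0 := by omega
  have e2 : n - d + 1 * d = n := by omega
  rw [e1, e2] at this
  simpa using this

end Pool.Agent.H90.EF
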