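import Mathlib

set_option autoImplicit false

open Finset

namespace Pool.Agent.H90.EF

variable {ι : Type*} [Fintype ι] [DecidableEq ι]

/-- the cover excess of a tuple of subsets of `{0,...,W-1}` -/
def cc : ℕ → (ι → Finset ℕ) → ℤ
  | 0, _ => 0
  | W + 1, e => max 0 (1 - ((univ.filter (fun l => W ∈ e l)).card : ℤ) + cc W e)

theorem cc_zero (e : ι → Finset ℕ) : cc 0 e = 0 := rfl

theorem cc_succ (W : ℕ) (e : ι → Finset ℕ) :
    cc (W + 1) e = max 0 (1 - ((univ.filter (fun l => W ∈ e l)).card : ℤ) + cc W e) := rfl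

theorem cc_nonneg (W : ℕ) (e : ι → Finset ℕ) : 0 ≤ cc W e := by
  cases W with
  | zero => exact le_rfl
  | succ W => exact le_max_left _ _

theorem cc_congr {W : ℕ} {e e' : ι → Finset ℕ} (h : ∀ l, ∀ x < W, x ∈ e l ↔ x ∈ e' l) :
    cc W e = cc W e' := by
  induction W with
  | zero => rfl
  | succ W ih =>
    rw [cc_succ, cc_succ, ih (fun l x hx => h l x (by omega))]
    have : (univ.filter (fun l => W ∈ e l)) = (univ.filter (fun l => W ∈ e' l)) :=
      filter_congr (fun l _ => h l W (by omega))
    rw [this]

/-- the threshold functions satisfy the cover condition with excess `α` -/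
def Ok (W : ℕ) (α : ℤ) (J : ι → Finset ℕ → ℤ) : Prop :=
  ∀ e : ι → Finset ℕ, (∀ l, e l ⊆ range W) → (∀ l, 0 ≤ J l (e l)) →
    ∑ l, J l (e l) ≤ α + cc W e

/-- total weight -/
noncomputable def EN (W : ℕ) (N : ℤ → ℝ) (J : Finset ℕ → ℤ) : ℝ :=
  ∑ S ∈ (range W).powerset, N (J S)

/-- the averaging operator (not normalised) -/
def TT (N : ℤ → ℝ) : ℤ → ℝ := fun p => N p + N (p - 1)

/-- all admissible products are at most `K` -/
def Bd (ι : Type*) [Fintype ι] [DecidableEq ι] (W : ℕ) (α : ℤ) (N : ℤ → ℝ) (K : ℝ) : Prop :=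
  ∀ J : ι → Finset ℕ → ℤ, Ok W α J → ∏ l, EN W N (J l) ≤ K

/-- the larger of the two thresholds over `S` -/
def pk (W : ℕ) (J : Finset ℕ → ℤ) (S : Finset ℕ) : ℤ := max (J S) (J (insert W S))

theorem EN_succ (W : ℕ) (N : ℤ → ℝ) (J : Finset ℕ → ℤ) :
    EN (W + 1) N J = ∑ S ∈ (range W).powerset, (N (J S) + N (J (insert W S))) := by
  unfold EN
  rw [range_add_one, sum_powerset_insert (by simp), sum_add_distrib]

section Key

variable {W : ℕ} {α : ℤ} {J : ι → Finset ℕ → ℤ}

theorem key (hJ : Ok (W + 1) α J) {e : ι → Finset ℕ} (he : ∀ l, e l ⊆ range W)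
    (hp : ∀ l, 0 ≤ pk W (J l) (e l)) :
    ∑ l, pk W (J l) (e l) ≤ α + max 0
      (1 - ((univ.filter (fun l => J l (e l) ≤ J l (insert W (e l)))).card : ℤ) + cc W e) := by
  classical
  set e' : ι → Finset ℕ := fun l =>
    if J l (e l) ≤ J l (insert W (e l)) then insert W (e l) else e l with he'
  have hWe : ∀ l, W ∉ e l := fun l h => by simpa using he l h
  have hval : ∀ l, J l (e' l) = pk W (J l) (e l) := by
    intro l
    rw [he', pk]
    by_cases h : J l (e l) ≤ J l (insert W (e l))
    · simp only [h, if_true, max_eq_right]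
    · simp only [h, if_false]
      rw [max_eq_left (by omega)]
  have h1 := hJ e' (by
    intro l x hx
    rw [mem_range]
    rw [he'] at hx
    by_cases h : J l (e l) ≤ J l (insert W (e l))
    · simp only [h, if_true, mem_insert] at hx
      rcases hx with rfl | hx
      · omega
      · have := he l hx
        rw [mem_range] at this
        omega
    · simp only [h, if_false] at hx
      have := he l hx
      rw [mem_range] at this
      omega) (fun l => by rw [hval]; exact hp l)
  simp only [hval] at h1
  refine h1.trans ?_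
  rw [cc_succ]
  have h2 : (univ.filter (fun l => W ∈ e' l)) =
      (univ.filter (fun l => J l (e l) ≤ J l (insert W (e l)))) := by
    refine filter_congr (fun l _ => ?_)
    rw [he']
    by_cases h : J l (e l) ≤ J l (insert W (e l))
    · simp [h]
    · simp [h, hWe l]
  have h3 : cc W e' = cc W e := by
    refine cc_congr (fun l x hx => ?_)
    rw [he']
    by_cases h : J l (e l) ≤ J l (insert W (e l))
    · simp only [h, if_true, mem_insert]
      constructor
      · rintro (h | h)
        · omega
        · exact h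
      · exact Or.inr
    · simp [h]
  rw [h2, h3]

/-- lowering the points of the second kind in one coordinate -/
def low (W : ℕ) (J : Finset ℕ → ℤ) (S : Finset ℕ) : ℤ :=
  if J S ≤ J (insert W S) then pk W J S else pk W J S - 1

theorem ok_low (hJ : Ok (W + 1) α J) (l0 : ι) :
    Ok W α (fun l => if l = l0 then low W (J l) else pk W (J l)) := by
  classical
  intro e he hq
  have hle : ∀ l, (if l = l0 then low W (J l) else pk W (J l)) (e l) ≤ pk W (J l) (e l) := by
    intro l
    split_ifs with h
    · unfold low; split_ifs <;> omega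
    · exact le_rfl
  have hp : ∀ l, 0 ≤ pk W (J l) (e l) := fun l => (hq l).trans (hle l)
  have h1 := key hJ he hp
  have hc := cc_nonneg W e
  set a := (univ.filter (fun l => J l (e l) ≤ J l (insert W (e l)))).card with ha
  rcases Nat.eq_zero_or_pos a with h0 | hpos
  · -- all points are of the second kind
    have hB : ¬ (J l0 (e l0) ≤ J l0 (insert W (e l0))) := by
      intro h
      have : 0 < a := card_pos.mpr ⟨l0, by rw [mem_filter]; exact ⟨mem_univ _, h⟩⟩
      omega
    have h2 : ∑ l, (if l = l0 then low W (J l) else pk W (J l)) (e l) + 1 ≤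
        ∑ l, pk W (J l) (e l) := by
      rw [← add_sum_erase univ _ (mem_univ l0),
        ← add_sum_erase univ (fun l => pk W (J l) (e l)) (mem_univ l0)]
      have h3 : ∑ l ∈ univ.erase l0, (if l = l0 then low W (J l) else pk W (J l)) (e l) ≤
          ∑ l ∈ univ.erase l0, pk W (J l) (e l) := sum_le_sum (fun l _ => hle l)
      have h4 : (if l0 = l0 then low W (J l0) else pk W (J l0)) (e l0) + 1 =
          pk W (J l0) (e l0) := by
        simp only [if_true, low, hB, if_false]; ring
      linarith
    rw [h0] at h1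
    have h5 : max (0 : ℤ) (1 - ((0 : ℕ) : ℤ) + cc W e) ≤ 1 + cc W e := by
      rw [max_le_iff]
      constructor
      · linarith
      · push_cast
        linarith
    linarith
  · have h2 : ∑ l, (if l = l0 then low W (J l) else pk W (J l)) (e l) ≤
        ∑ l, pk W (J l) (e l) := sum_le_sum (fun l _ => hle l)
    have h5 : max (0 : ℤ) (1 - (a : ℤ) + cc W e) ≤ cc W e := by
      rw [max_le_iff]
      constructor
      · exact hc
      · have : (1 : ℤ) ≤ a := by exact_mod_cast hpos
        linarith
    linarith

/-- raising the points of the first kind above the threshold `κ` -/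
def ris (W : ℕ) (κ : ℤ) (J : Finset ℕ → ℤ) (S : Finset ℕ) : ℤ :=
  if J S ≤ J (insert W S) ∧ 0 ≤ pk W J S ∧ κ ≤ pk W J S then pk W J S + 1 else pk W J S

theorem ok_ris (hJ : Ok (W + 1) α J) {κ : ι → ℤ} (hκ : ∀ i j, i ≠ j → α + 1 ≤ κ i + κ j) :
    Ok W (α + 1) (fun l => ris W (κ l) (J l)) := by
  classical
  intro e he hq
  have hp : ∀ l, 0 ≤ pk W (J l) (e l) := by
    intro l
    have := hq l
    simp only [ris] at this
    split_ifs at this with h
    · exact h.2.1
    · exact this
  have h1 := key hJ he hp
  have hc := cc_nonneg W e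
  set A := univ.filter (fun l => J l (e l) ≤ J l (insert W (e l))) with hA
  set R := univ.filter (fun l => J l (e l) ≤ J l (insert W (e l)) ∧ 0 ≤ pk W (J l) (e l) ∧
    κ l ≤ pk W (J l) (e l)) with hR
  have hRA : R ⊆ A := by
    intro l hl
    rw [hR, mem_filter] at hl
    rw [hA, mem_filter]
    exact ⟨hl.1, hl.2.1⟩
  have hsum : ∑ l, ris W (κ l) (J l) (e l) = ∑ l, pk W (J l) (e l) + R.card := by
    rw [card_eq_sum_ones, hR, sum_filter]
    push_cast
    rw [← sum_add_distrib]
    refine sum_congr rfl (fun l _ => ?_)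
    unfold ris
    split_ifs <;> simp
  rw [hsum]
  have hRAc : (R.card : ℤ) ≤ A.card := by exact_mod_cast card_le_card hRA
  rcases Nat.lt_or_ge R.card 2 with h2 | h2
  · rcases Nat.eq_zero_or_pos R.card with h0 | hpos
    · rw [h0]
      have h5 : max (0 : ℤ) (1 - (A.card : ℤ) + cc W e) ≤ 1 + cc W e := by
        rw [max_le_iff]
        constructor
        · linarith
        · have : (0 : ℤ) ≤ A.card := Int.natCast_nonneg _
          linarith
      push_cast
      linarith
    · have hR1 : R.card = 1 := by omega
      rw [hR1] at hRAc ⊢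
      have h5 : max (0 : ℤ) (1 - (A.card : ℤ) + cc W e) ≤ cc W e := by
        rw [max_le_iff]
        constructor
        · exact hc
        · push_cast at hRAc
          linarith
      push_cast
      linarith
  · -- two raised points
    obtain ⟨i, hi, j, hj, hij⟩ := one_lt_card.mp h2
    have hi' := hi
    have hj' := hj
    rw [hR, mem_filter] at hi' hj'
    have h3 := hκ i j hij
    have h4 : pk W (J i) (e i) + pk W (J j) (e j) ≤ ∑ l, pk W (J l) (e l) := by
      rw [← add_sum_erase univ (fun l => pk W (J l) (e l)) (mem_univ i)]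
      have : pk W (J j) (e j) ≤ ∑ l ∈ univ.erase i, pk W (J l) (e l) :=
        single_le_sum (f := fun l => pk W (J l) (e l)) (fun l _ => hp l)
          (mem_erase.mpr ⟨hij.symm, mem_univ _⟩)
      linarith
    have h5 : α + 1 ≤ ∑ l, pk W (J l) (e l) := by linarith [hi'.2.2.2, hj'.2.2.2]
    rcases le_total (0 : ℤ) (1 - (A.card : ℤ) + cc W e) with h6 | h6
    · rw [max_eq_right h6] at h1
      linarith
    · rw [max_eq_left h6] at h1
      linarith

end Key

end Pool.Agent.H90.EF
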