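import Pool.Agent.H90.EF.Large

/-!
# `k = 3`, large `t`: `Fin5` at `α₁ = 7 (t - 1) / 11 - 1` (helper90)
-/

set_option autoImplicit false

open Finset

namespace Pool.Agent.H90.EF

open Pool.Agent.H93.EF (Nb)
open Pool.Agent.H79.EF (HHj Fin5 ratio_anti lc_Nb)

/-- `C(n,j) (n - j) ≤ (n - 2 j + β) N_n(j)` -/
theorem zbound {n : ℕ} {β : ℝ} (hβ : 0 ≤ β) : ∀ j : ℕ, 2 * j ≤ n →
    2 * (j : ℝ) ≤ β * ((n : ℝ) - 2 * j + 2 + β) →
    (n.choose j : ℝ) * ((n : ℝ) - j) ≤ ((n : ℝ) - 2 * j + β) * Nb n j := by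
  intro j
  induction j with
  | zero =>
    intro _ _
    have : Nb n ((0 : ℕ) : ℤ) = 1 := Nb_zero' n
    rw [this]
    simp
    linarith
  | succ i ih =>
    intro hi hb
    have hiR : 2 * ((i : ℝ) + 1) ≤ n := by exact_mod_cast hi
    push_cast at hb
    have ih' := ih (by omega) (by nlinarith)
    have hr := choose_rec n i (by omega)
    have e1 : Nb n ((i + 1 : ℕ) : ℤ) = Nb n i + (n.choose (i + 1) : ℝ) := by
      rw [Nat.cast_add, Nat.cast_one]
      exact Nb_succ' n i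
    rw [e1]
    push_cast
    set A : ℝ := (n : ℝ) - 2 * i + β with hA
    have hA0 : 0 < A := by linarith
    set C : ℝ := (n.choose (i + 1) : ℝ) with hC
    have hC0 : 0 ≤ C := by positivity
    -- `(i + 1) C ≤ A N_i`
    have h1 : ((i : ℝ) + 1) * C ≤ A * Nb n i := by
      rw [hr]
      linarith
    have h2 : ((n : ℝ) - (i + 1)) * A ≤ (A - 2) * (A + (i + 1)) := by
      have : 2 * ((i : ℝ) + 1) ≤ β * A := by
        rw [hA]
        linarith
      nlinarith
    have hA2 : 0 ≤ A - 2 := by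
      rw [hA]
      linarith
    have h3 : A * (C * ((n : ℝ) - (i + 1))) ≤ A * ((A - 2) * (Nb n i + C)) := by
      calc A * (C * ((n : ℝ) - (i + 1))) = C * (((n : ℝ) - (i + 1)) * A) := by ring
        _ ≤ C * ((A - 2) * (A + (i + 1))) := mul_le_mul_of_nonneg_left h2 hC0
        _ = (A - 2) * (A * C + (i + 1) * C) := by ring
        _ ≤ (A - 2) * (A * C + A * Nb n i) :=
          mul_le_mul_of_nonneg_left (by linarith) hA2
        _ = _ := by ring
    have h4 := le_of_mul_le_mul_left h3 hA0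
    have e : (n : ℝ) - 2 * (i + 1) + β = A - 2 := by rw [hA]; ring
    rw [e]
    linarith

/-- the critical level is at least about `(17 t - 72) / 38` -/
theorem crit_lower {t c : ℕ}
    (h : (17 / 72 : ℝ) * Nb (t + 3 * c) ((c : ℤ) + 1) ≤ Nb (t + 3 * c) c) :
    17 * t ≤ 38 * c + 72 := by
  -- `(n - c) N(c) ≤ (c + 1) N(c + 1)` by induction
  have hgen : ∀ (n j : ℕ), j ≤ n →
      ((n : ℝ) - j) * Nb n j ≤ (j + 1) * Nb n ((j : ℤ) + 1) := by
    intro n j
    induction j with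
    | zero =>
      intro _
      have h1 := Nb_succ' n 0
      have h0 : Nb n ((0 : ℕ) : ℤ) = 1 := Nb_zero' n
      rw [h1, h0]
      simp
    | succ i ih =>
      intro hi
      have ih' := ih (by omega)
      have hr := choose_rec n (i + 1) (by omega)
      have e1 : Nb n ((i + 1 : ℕ) : ℤ) = Nb n ((i : ℤ) + 1) := by push_cast; rfl
      have h2 := Nb_succ' n (i + 1)
      rw [h2]
      push_cast at hr ⊢
      have e2 := Nb_succ' n i
      have hN := Nb_nonneg' n ((i : ℤ) + 1)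
      have hNi := Nb_nonneg' n (i : ℤ)
      nlinarith
  have h1 := hgen (t + 3 * c) c (by omega)
  have hN := Nb_pos' (t + 3 * c) c
  push_cast at h1
  have h2 : ((17 : ℝ) * t) * Nb (t + 3 * c) c ≤ (38 * c + 72) * Nb (t + 3 * c) c := by
    have h3 : ((c : ℝ) + 1) * (17 / 72 * Nb (t + 3 * c) ((c : ℤ) + 1)) ≤
        (c + 1) * Nb (t + 3 * c) c := mul_le_mul_of_nonneg_left h (by positivity)
    linarith
  have h3 := le_of_mul_le_mul_right h2 hN
  exact_mod_cast h3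

/-- the critical level is at most `(17 t - 6) / 38` -/
theorem crit_upper {t c : ℕ} (ht : 60 ≤ t) (hc1 : 17 * t ≤ 38 * c + 43)
    (hc2 : 38 * c + 6 ≤ 17 * t) :
    (17 / 72 : ℝ) * Nb (t + 3 * c) ((c : ℤ) + 1) ≤ Nb (t + 3 * c) c := by
  have hc1R : (17 : ℝ) * t ≤ 38 * c + 43 := by exact_mod_cast hc1
  have hc2R : (38 : ℝ) * c + 6 ≤ 17 * t := by exact_mod_cast hc2
  have htR : (60 : ℝ) ≤ t := by exact_mod_cast ht
  have hz := zbound (n := t + 3 * c) (β := 2 / 3) (by norm_num) c (by omega)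
    (by push_cast; linarith)
  have hr := choose_rec (t + 3 * c) c (by omega)
  have hN := Nb_pos' (t + 3 * c) c
  rw [Nb_succ']
  push_cast at hz hr
  set N := Nb (t + 3 * c) c with hNd
  set C : ℝ := ((t + 3 * c).choose (c + 1) : ℝ) with hC
  have h1 : ((c : ℝ) + 1) * C ≤ (t + c + 2 / 3) * N := by
    rw [hr]
    linarith
  have h2 : ((c : ℝ) + 1) * (17 / 72 * (N + C)) ≤ (c + 1) * N := by
    have : ((c : ℝ) + 1) * (17 / 72 * (N + C)) ≤ 17 / 72 * ((c + 1) * N + (t + c + 2 / 3) * N) := by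
      linarith
    have e : 17 / 72 * (((c : ℝ) + 1) * N + (t + c + 2 / 3) * N) =
        (17 / 72 * (t + 2 * c + 5 / 3)) * N := by ring
    rw [e] at this
    have h3 : (17 / 72 * ((t : ℝ) + 2 * c + 5 / 3)) * N ≤ (c + 1) * N :=
      mul_le_mul_of_nonneg_right (by linarith) hN.le
    linarith
  exact le_of_mul_le_mul_left h2 (by positivity)

theorem fin_three {t : ℕ} (ht : 60 ≤ t) :
    ∃ (c : ℕ) (ρ : ℝ), Fin5 3 t (7 * (t - 1) / 11 - 1) c (17 / 72) ρ := by
  classical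
  set α := 7 * (t - 1) / 11 - 1 with hα
  have htR : (60 : ℝ) ≤ t := by exact_mod_cast ht
  have hα1 : 7 * t ≤ 11 * α + 28 := by omega
  have hα2 : 11 * α + 18 ≤ 7 * t := by omega
  set c₀ := (17 * t - 6) / 38 with hc₀
  have hc01 : 17 * t ≤ 38 * c₀ + 43 := by omega
  have hc02 : 38 * c₀ + 6 ≤ 17 * t := by omega
  have hex : ∃ c : ℕ, (17 / 72 : ℝ) * Nb (t + 3 * c) ((c : ℤ) + 1) ≤ Nb (t + 3 * c) c :=
    ⟨c₀, crit_upper ht hc01 hc02⟩
  set c := Nat.find hex with hc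
  have h2 : (17 / 72 : ℝ) * Nb (t + 3 * c) ((c : ℤ) + 1) ≤ Nb (t + 3 * c) c := Nat.find_spec hex
  have hcle : c ≤ c₀ := Nat.find_min' hex (crit_upper ht hc01 hc02)
  have hcl := crit_lower h2
  obtain ⟨d, hd⟩ : ∃ d, c = d + 1 := ⟨c - 1, by omega⟩
  have hmin : ¬ ((17 / 72 : ℝ) * Nb (t + 3 * d) ((d : ℤ) + 1) ≤ Nb (t + 3 * d) d) :=
    Nat.find_min hex (by omega)
  push Not at hmin
  have e1 : ((c : ℕ) : ℤ) = (d : ℤ) + 1 := by rw [hd]; push_cast; ring
  have e2 : (c : ℤ) - 1 = (d : ℤ) := by rw [e1]; ring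
  have hNd1 : 0 < Nb (t + 3 * d) ((d : ℤ) + 1) := by
    have := Nb_pos' (t + 3 * d) (d + 1)
    push_cast at this
    exact this
  have hcR : (38 : ℝ) * c + 6 ≤ 17 * t := by
    have : 38 * c + 6 ≤ 17 * t := by omega
    exact_mod_cast this
  have hα1R : (7 : ℝ) * t ≤ 11 * α + 28 := by exact_mod_cast hα1
  have hlin : ∀ j : ℕ, j ≤ c → HHj 3 (17 / 72) (Nb (t + α)) j := by
    intro j hj
    unfold HHj
    have hjR : (j : ℝ) ≤ c := by exact_mod_cast hj
    have hj0 : (0 : ℝ) ≤ j := by positivity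
    have hz := zbound (n := t + α) (β := 5 / 4) (by norm_num) j (by omega)
      (by push_cast; linarith)
    have hN := Nb_pos' (t + α) j
    have hz' : (((t + α : ℕ) : ℝ) - j) * (((t + α).choose j : ℝ) / Nb (t + α) j) ≤
        ((t + α : ℕ) : ℝ) - 2 * j + 5 / 4 := by
      rw [mul_div_assoc', div_le_iff₀ hN]
      linarith
    have hcond : (((1 : ℕ) : ℝ) + ((2 : ℕ) : ℝ)) * (2 * ((j : ℝ) + 1) +
        (17 / 72) / (1 + (17 / 72)) *
        ((((t + α : ℕ) : ℝ) - j) * (((t + α).choose j : ℝ) / Nb (t + α) j))) ≤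
        2 * ((1 : ℕ) : ℝ) * (((t + α : ℕ) : ℝ) + 1) := by
      push_cast at hz' ⊢
      norm_num
      linarith
    have := key_lin (m := t + α) (a := 1) (b := 2) (j := j) one_pos (by omega)
      (by norm_num : (0 : ℝ) < 17 / 72) (by omega) hcond
    rw [pow_one] at this
    exact this
  have hN1 : 0 < Nb (t + α) ((c : ℤ) + 1) := by
    have := Nb_pos' (t + α) (c + 1)
    push_cast at this
    exact this
  have hN0 := Nb_pos' (t + α) c
  refine ⟨c, Nb (t + α) c / Nb (t + α) ((c : ℤ) + 1), by omega, h2, ?_, Or.inr ?_⟩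
  · have ha := ratio_anti (n := t + 3 * d) (m := t + 3 * c) (by omega) (c : ℤ)
    rw [e2, e1] at ha
    rw [e2, e1]
    have hNm : 0 ≤ Nb (t + 3 * c) ((d : ℤ) + 1) := Nb_nonneg' _ _
    have i1 : Nb (t + 3 * d) d * Nb (t + 3 * c) ((d : ℤ) + 1) ≤
        (17 / 72 * Nb (t + 3 * d) ((d : ℤ) + 1)) * Nb (t + 3 * c) ((d : ℤ) + 1) :=
      mul_le_mul_of_nonneg_right hmin.le hNm
    have i2 : Nb (t + 3 * d) ((d : ℤ) + 1) * Nb (t + 3 * c) d ≤
        Nb (t + 3 * d) ((d : ℤ) + 1) * (17 / 72 * Nb (t + 3 * c) ((d : ℤ) + 1)) := by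
      linarith
    exact le_of_mul_le_mul_left i2 hNd1
  · have hdd : Nb (t + α) c / (Nb (t + α) c / Nb (t + α) ((c : ℤ) + 1)) =
        Nb (t + α) ((c : ℤ) + 1) := by
      field_simp
    refine ⟨by positivity, ?_, ?_, ?_, ?_, ?_⟩
    · rw [div_mul_cancel₀ _ hN1.ne']
    · have := (lc_Nb (t + α)).lc c
      rw [div_mul_eq_mul_div, le_div_iff₀ hN1]
      nlinarith
    · rw [hdd]
      have : Nb (t + 3 * c) ((c : ℤ) + 1) + Nb (t + α) ((c : ℤ) + 1) -
          Nb (t + α) ((c : ℤ) + 1) = Nb (t + 3 * c) ((c : ℤ) + 1) := by ring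
      rw [this]
      exact h2
    · intro j hj
      exact hlin j hj.le
    · rw [hdd]
      exact hlin c le_rfl

end Pool.Agent.H90.EF
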