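import Pool.Agent.H90.EF.ThmA

set_option autoImplicit false

open Finset

namespace Pool.Agent.H90.EF

theorem log_mix {σ : Type*} (A : Finset σ) (θ t : σ → ℝ) (hθ : ∀ S ∈ A, 0 ≤ θ S)
    (h1 : ∑ S ∈ A, θ S ≤ 1) (ht : ∀ S ∈ A, 0 < t S) {E : ℝ}
    (hE : E = 1 - ∑ S ∈ A, θ S + ∑ S ∈ A, θ S * t S) (hE0 : 0 < E) :
    ∑ S ∈ A, θ S * Real.log (t S) ≤ Real.log E := by
  have hS : ∀ S ∈ A, θ S * Real.log (t S) ≤ θ S * (Real.log E + (t S / E - 1)) := by
    intro S hS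
    refine mul_le_mul_of_nonneg_left ?_ (hθ S hS)
    have h2 := Real.log_le_sub_one_of_pos (div_pos (ht S hS) hE0)
    rw [Real.log_div (ht S hS).ne' hE0.ne'] at h2
    linarith
  have hone : 0 ≤ Real.log E + (1 / E - 1) := by
    have h2 := Real.log_le_sub_one_of_pos (div_pos one_pos hE0)
    rw [Real.log_div one_ne_zero hE0.ne', Real.log_one] at h2
    linarith
  have h3 := sum_le_sum hS
  have h4 := mul_nonneg (show 0 ≤ 1 - ∑ S ∈ A, θ S by linarith) hone
  have e1 : ∑ S ∈ A, θ S * (Real.log E + (t S / E - 1)) =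
      (∑ S ∈ A, θ S) * (Real.log E - 1) + (∑ S ∈ A, θ S * t S) / E := by
    rw [sum_mul, sum_div, ← sum_add_distrib]
    refine sum_congr rfl (fun S _ => ?_)
    ring
  rw [e1] at h3
  have e2 : (∑ S ∈ A, θ S * t S) / E = (E - (1 - ∑ S ∈ A, θ S)) / E := by rw [hE]; ring
  rw [e2, sub_div, div_self hE0.ne'] at h3
  have e3 : (1 - ∑ S ∈ A, θ S) * (Real.log E + (1 / E - 1)) =
      (1 - ∑ S ∈ A, θ S) * Real.log E + (1 - ∑ S ∈ A, θ S) / E - (1 - ∑ S ∈ A, θ S) := by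
    ring
  rw [e3] at h4
  linarith

theorem log_prod {F₀ F₁ F₂ Y : ℝ} (h0 : 0 < F₀) (h1 : 0 < F₁) (h2 : 0 < F₂) (hY : 0 < Y)
    (a b c : ℕ) : a * Real.log (F₀ / Y) + b * Real.log (F₁ / Y) + c * Real.log (F₂ / Y) =
      Real.log (F₀ ^ a * F₁ ^ b * F₂ ^ c / Y ^ (a + b + c)) := by
  rw [Real.log_div h0.ne' hY.ne', Real.log_div h1.ne' hY.ne', Real.log_div h2.ne' hY.ne',
    Real.log_div (mul_pos (mul_pos (pow_pos h0 a) (pow_pos h1 b)) (pow_pos h2 c)).ne'
      (pow_pos hY _).ne', Real.log_mul (mul_pos (pow_pos h0 a) (pow_pos h1 b)).ne'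
      (pow_pos h2 c).ne', Real.log_mul (pow_pos h0 a).ne' (pow_pos h1 b).ne', Real.log_pow,
    Real.log_pow, Real.log_pow, Real.log_pow]
  push_cast
  ring

/-- the value of a raising test for one family -/
noncomputable def EE {σ : Type*} (N : ℤ → ℝ) (A : Finset σ) (p : σ → ℤ) (V : ℝ) (κ : ℤ) : ℝ :=
  V + ∑ S ∈ A, (if κ ≤ p S then N (p S + 1) - N (p S) else -(N (p S) - N (p S - 1)))

/-- the value of a raising test at one point -/
noncomputable def ff (N : ℤ → ℝ) (x : ℝ) (κ j : ℤ) : ℝ :=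
  if κ ≤ j then N j + x * N (j + 1) else N j + x * N (j - 1)

section Family

variable {x : ℝ} {N : ℤ → ℝ} {σ : Type*} {A : Finset σ} {p : σ → ℤ} {V : ℝ}

theorem EE_pos (hx : 0 < x) (hN : ∀ p, 0 ≤ N p)
    (hmono : Monotone N) (hV : 0 < V) (hM : (1 + x) * ∑ S ∈ A, N (p S) ≤ x * V) (κ : ℤ) :
    0 < EE N A p V κ := by
  have h1 : V - ∑ S ∈ A, N (p S) ≤ EE N A p V κ := by
    unfold EE
    rw [sub_eq_add_neg, ← sum_neg_distrib]
    refine add_le_add le_rfl (sum_le_sum (fun S _ => ?_))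
    split_ifs
    · have := hN (p S)
      have : N (p S) ≤ N (p S + 1) := hmono (by omega)
      linarith
    · have := hN (p S - 1)
      linarith
  have h2 : 0 < V - ∑ S ∈ A, N (p S) := by
    by_contra hcon
    push Not at hcon
    have h3 : (1 + x) * V ≤ (1 + x) * ∑ S ∈ A, N (p S) :=
      mul_le_mul_of_nonneg_left (by linarith) (by linarith)
    linarith
  linarith

theorem log_EE (hx : 0 < x) (hN : ∀ p, 0 ≤ N p)
    (hmono : Monotone N) (hV : 0 < V) (hA : ∀ S ∈ A, 0 < N (p S))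
    (hM : (1 + x) * ∑ S ∈ A, N (p S) ≤ x * V) (κ : ℤ) :
    ∑ S ∈ A, ((1 + x) * N (p S) / (x * V)) *
      Real.log (ff N x κ (p S) / ((1 + x) * N (p S))) ≤ Real.log (EE N A p V κ / V) := by
  have hff : ∀ S ∈ A, 0 < ff N x κ (p S) := by
    intro S hS
    unfold ff
    split_ifs
    · have := hA S hS
      have := mul_nonneg hx.le (hN (p S + 1))
      linarith
    · have := hA S hS
      have := mul_nonneg hx.le (hN (p S - 1))
      linarith
  refine log_mix A _ _ (fun S hS => ?_) ?_ (fun S hS => ?_) ?_ ?_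
  · have := hA S hS
    positivity
  · rw [← sum_div, ← mul_sum, div_le_one (by positivity)]
    exact hM
  · have := hA S hS
    have := hff S hS
    positivity
  · unfold EE
    rw [add_div, div_self hV.ne', sub_add, sub_eq_add_neg, ← neg_sub, neg_neg, ← sum_sub_distrib,
      sum_div]
    congr 1
    refine sum_congr rfl (fun S hS => ?_)
    have h0 := (hA S hS).ne'
    unfold ff
    split_ifs <;> field_simp <;> ring
  · exact div_pos (EE_pos hx hN hmono hV hM κ) hV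

/-- the mixture inequality for one family -/
theorem mix_family (hx : 0 < x) (hN : ∀ p, 0 ≤ N p)
    (hmono : Monotone N) (hV : 0 < V) (hA : ∀ S ∈ A, 0 < N (p S))
    (hM : (1 + x) * ∑ S ∈ A, N (p S) ≤ x * V) {κ₀ κ₁ κ₂ : ℤ} {a b c : ℕ}
    (hlev : ∀ S ∈ A, ((1 + x) * N (p S)) ^ (a + b + c) ≤
      ff N x κ₀ (p S) ^ a * ff N x κ₁ (p S) ^ b * ff N x κ₂ (p S) ^ c) :
    V ^ (a + b + c) ≤ EE N A p V κ₀ ^ a * EE N A p V κ₁ ^ b * EE N A p V κ₂ ^ c := by
  have hff : ∀ κ, ∀ S ∈ A, 0 < ff N x κ (p S) := by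
    intro κ S hS
    unfold ff
    split_ifs
    · have := hA S hS
      have := mul_nonneg hx.le (hN (p S + 1))
      linarith
    · have := hA S hS
      have := mul_nonneg hx.le (hN (p S - 1))
      linarith
  have hE := fun κ => EE_pos (κ := κ) hx hN hmono hV hM
  have hl := fun κ => log_EE (κ := κ) hx hN hmono hV hA hM
  have h0 : 0 ≤ ∑ S ∈ A, ((1 + x) * N (p S) / (x * V)) *
      (a * Real.log (ff N x κ₀ (p S) / ((1 + x) * N (p S))) +
        b * Real.log (ff N x κ₁ (p S) / ((1 + x) * N (p S))) +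
        c * Real.log (ff N x κ₂ (p S) / ((1 + x) * N (p S)))) := by
    refine sum_nonneg (fun S hS => mul_nonneg ?_ ?_)
    · have := hA S hS
      positivity
    · have hn := hA S hS
      have hY : 0 < (1 + x) * N (p S) := by positivity
      have e : a * Real.log (ff N x κ₀ (p S) / ((1 + x) * N (p S))) +
          b * Real.log (ff N x κ₁ (p S) / ((1 + x) * N (p S))) +
          c * Real.log (ff N x κ₂ (p S) / ((1 + x) * N (p S))) =
          Real.log (ff N x κ₀ (p S) ^ a * ff N x κ₁ (p S) ^ b * ff N x κ₂ (p S) ^ c /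
            ((1 + x) * N (p S)) ^ (a + b + c)) := by
        exact log_prod (hff κ₀ S hS) (hff κ₁ S hS) (hff κ₂ S hS) hY a b c
      rw [e]
      refine Real.log_nonneg ?_
      rw [le_div_iff₀ (by positivity), one_mul]
      exact hlev S hS
  have h1 : (0 : ℝ) ≤ a * Real.log (EE N A p V κ₀ / V) + b * Real.log (EE N A p V κ₁ / V) +
      c * Real.log (EE N A p V κ₂ / V) := by
    refine h0.trans ?_
    have ha := mul_le_mul_of_nonneg_left (hl κ₀) (Nat.cast_nonneg (α := ℝ) a)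
    have hb := mul_le_mul_of_nonneg_left (hl κ₁) (Nat.cast_nonneg (α := ℝ) b)
    have hc := mul_le_mul_of_nonneg_left (hl κ₂) (Nat.cast_nonneg (α := ℝ) c)
    refine le_trans (le_of_eq ?_) (add_le_add (add_le_add ha hb) hc)
    rw [mul_sum, mul_sum, mul_sum, ← sum_add_distrib, ← sum_add_distrib]
    refine sum_congr rfl (fun S _ => ?_)
    ring
  have e : a * Real.log (EE N A p V κ₀ / V) + b * Real.log (EE N A p V κ₁ / V) +
      c * Real.log (EE N A p V κ₂ / V) = Real.log (EE N A p V κ₀ ^ a * EE N A p V κ₁ ^ b *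
        EE N A p V κ₂ ^ c / V ^ (a + b + c)) := by
    exact log_prod (hE κ₀) (hE κ₁) (hE κ₂) hV a b c
  rw [e] at h1
  have h2 : 1 ≤ EE N A p V κ₀ ^ a * EE N A p V κ₁ ^ b * EE N A p V κ₂ ^ c / V ^ (a + b + c) := by
    have hpos : 0 < EE N A p V κ₀ ^ a * EE N A p V κ₁ ^ b * EE N A p V κ₂ ^ c /
        V ^ (a + b + c) := by
      have g0 := hE κ₀
      have g1 := hE κ₁
      have g2 := hE κ₂
      positivity
    by_contra hcon
    push Not at hcon
    exact absurd h1 (not_le.mpr (Real.log_neg hpos hcon))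
  rw [le_div_iff₀ (by positivity), one_mul] at h2
  exact h2

end Family

/-- **Stage 1 step** for three families. -/
theorem step_mix {x : ℝ} (hx0 : 0 < x)
    (hx : ∀ X : ℝ, x ≤ X → X ≤ 1 → (1 + X) ^ 3 ≤ 2 ^ 3 * X)
    {W : ℕ} {α : ℤ} {N : ℤ → ℝ} {K : ℝ} (hN : ∀ p, 0 ≤ N p) (hneg : ∀ p < 0, N p = 0)
    (hpos : ∀ p, 0 ≤ p → 0 < N p) (hmono : Monotone N) (hα : -1 ≤ α) (hK : 0 ≤ K)
    {κ : ℤ} (hκ : α + 1 ≤ 2 * κ) {a b : ℕ}
    (hlev : ∀ j, 0 ≤ j → ((1 + x) * N j) ^ (a + 2 * a + 3 * b) ≤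
      ff N x 0 j ^ a * ff N x (α + 1) j ^ (2 * a) * ff N x κ j ^ (3 * b))
    (hlow : Bd (Fin 3) W α N (K / 2 ^ 3))
    (hup : Bd (Fin 3) W (α + 1) (TT N) K) (hab : 0 < a + b) : Bd (Fin 3) (W + 1) α N K := by
  classical
  have hc3 : Fintype.card (Fin 3) = 3 := rfl
  refine step_core hx0 (by rw [hc3]; exact hx) hN hmono hK (by rw [hc3]; exact hlow)
    (fun J hJ hV hM => ?_)
  set V : Fin 3 → ℝ := fun l => uu W N (J l) + ww W N (J l) with hVd
  have hA : ∀ l, ∀ S ∈ AA W (J l), 0 < N (pk W (J l) S) := by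
    intro l S hS
    rw [AA, mem_filter] at hS
    exact hpos _ hS.2.2
  have hfam : ∀ l, V l ^ (a + 2 * a + 3 * b) ≤ EE N (AA W (J l)) (pk W (J l)) (V l) 0 ^ a *
      EE N (AA W (J l)) (pk W (J l)) (V l) (α + 1) ^ (2 * a) *
      EE N (AA W (J l)) (pk W (J l)) (V l) κ ^ (3 * b) := by
    intro l
    refine mix_family hx0 hN hmono (hV l) (hA l) (hM l) (fun S hS => hlev _ ?_)
    rw [AA, mem_filter] at hS
    exact hS.2.2
  have hEN : ∀ (l : Fin 3) (κ' : ℤ), EN W (TT N) (ris W κ' (J l)) =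
      EE N (AA W (J l)) (pk W (J l)) (V l) κ' := fun l κ' => EN_ris hneg κ'
  have hEE0 : ∀ (l : Fin 3) (κ' : ℤ), 0 < EE N (AA W (J l)) (pk W (J l)) (V l) κ' :=
    fun l κ' => EE_pos hx0 hN hmono (hV l) (hM l) κ'
  have hT1 := hup _ (ok_ris hJ (κ := fun _ => κ) (fun i j _ => by omega))
  have hT0 : ∀ l0 : Fin 3, ∏ l, EN W (TT N) (ris W (if l = l0 then 0 else α + 1) (J l)) ≤ K := by
    intro l0
    refine hup _ (ok_ris hJ (κ := fun l => if l = l0 then 0 else α + 1) ?_)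
    intro i j hij
    by_cases hi : i = l0
    · subst hi
      simp [hij.symm]
    · by_cases hj : j = l0
      · subst hj; simp [hij]
      · simp only [hi, hj, if_false]; omega
  have h00 := hT0 0
  have h01 := hT0 1
  have h02 := hT0 2
  simp only [hEN, Fin.prod_univ_three] at h00 h01 h02 hT1
  simp only [Fin.isValue, ↓reduceIte, one_ne_zero, zero_ne_one, Fin.reduceEq] at h00 h01 h02
  rw [Fin.prod_univ_three]
  by_contra hcon
  push Not at hcon
  have hf0 := hfam 0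
  have hf1 := hfam 1
  have hf2 := hfam 2
  have p00 := hEE0 0 0
  have p01 := hEE0 0 (α + 1)
  have p02 := hEE0 0 κ
  have p10 := hEE0 1 0
  have p11 := hEE0 1 (α + 1)
  have p12 := hEE0 1 κ
  have p20 := hEE0 2 0
  have p21 := hEE0 2 (α + 1)
  have p22 := hEE0 2 κ
  generalize EE N (AA W (J 0)) (pk W (J 0)) (V 0) 0 = E00 at *
  generalize EE N (AA W (J 0)) (pk W (J 0)) (V 0) (α + 1) = E01 at *
  generalize EE N (AA W (J 0)) (pk W (J 0)) (V 0) κ = E02 at *
  generalize EE N (AA W (J 1)) (pk W (J 1)) (V 1) 0 = E10 at *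
  generalize EE N (AA W (J 1)) (pk W (J 1)) (V 1) (α + 1) = E11 at *
  generalize EE N (AA W (J 1)) (pk W (J 1)) (V 1) κ = E12 at *
  generalize EE N (AA W (J 2)) (pk W (J 2)) (V 2) 0 = E20 at *
  generalize EE N (AA W (J 2)) (pk W (J 2)) (V 2) (α + 1) = E21 at *
  generalize EE N (AA W (J 2)) (pk W (J 2)) (V 2) κ = E22 at *
  have hV0 := hV 0
  have hV1 := hV 1
  have hV2 := hV 2
  have hVV : K < V 0 * V 1 * V 2 := hcon
  have hPV : 0 < V 0 * V 1 * V 2 := mul_pos (mul_pos hV0 hV1) hV2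
  have hprod : (V 0 * V 1 * V 2) ^ (a + 2 * a + 3 * b) ≤
      (E00 * E11 * E21) ^ a * (E01 * E10 * E21) ^ a * (E01 * E11 * E20) ^ a *
        (E02 * E12 * E22) ^ (3 * b) := by
    calc (V 0 * V 1 * V 2) ^ (a + 2 * a + 3 * b)
        = V 0 ^ (a + 2 * a + 3 * b) * V 1 ^ (a + 2 * a + 3 * b) * V 2 ^ (a + 2 * a + 3 * b) := by
          rw [mul_pow, mul_pow]
      _ ≤ (E00 ^ a * E01 ^ (2 * a) * E02 ^ (3 * b)) * (E10 ^ a * E11 ^ (2 * a) * E12 ^ (3 * b)) *
          (E20 ^ a * E21 ^ (2 * a) * E22 ^ (3 * b)) := by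
          refine mul_le_mul (mul_le_mul hf0 hf1 ?_ ?_) hf2 ?_ ?_ <;> positivity
      _ = _ := by ring
  have hle : (E00 * E11 * E21) ^ a * (E01 * E10 * E21) ^ a * (E01 * E11 * E20) ^ a *
        (E02 * E12 * E22) ^ (3 * b) ≤ K ^ a * K ^ a * K ^ a * K ^ (3 * b) := by
    refine mul_le_mul (mul_le_mul (mul_le_mul ?_ ?_ ?_ ?_) ?_ ?_ ?_) ?_ ?_ ?_
    · exact pow_le_pow_left₀ (by positivity) h00 a
    · exact pow_le_pow_left₀ (by positivity) h01 a
    all_goals first | positivity | skip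
    · exact pow_le_pow_left₀ (by positivity) h02 a
    · exact pow_le_pow_left₀ (by positivity) hT1 _
  have hlt : K ^ a * K ^ a * K ^ a * K ^ (3 * b) < (V 0 * V 1 * V 2) ^ (a + 2 * a + 3 * b) := by
    have e : K ^ a * K ^ a * K ^ a * K ^ (3 * b) = K ^ (a + 2 * a + 3 * b) := by ring
    rw [e]
    exact pow_lt_pow_left₀ hVV hK (by omega)
  linarith

end Pool.Agent.H90.EF
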