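import Pool.Agent.H90.EF.ThmA

set_option autoImplicit false

open Finset

namespace Pool.Agent.H90.EF

variable {ι : Type*} [Fintype ι] [DecidableEq ι]

/-- the exponential function on nonnegative arguments -/
noncomputable def ex (C x : ℝ) (p : ℤ) : ℝ := if 0 ≤ p then C * x ^ (-p) else 0

theorem ex_le {C x : ℝ} (hC : 0 ≤ C) (hx : 0 < x) (p : ℤ) : ex C x p ≤ C * x ^ (-p) := by
  unfold ex
  split_ifs
  · exact le_rfl
  · have := zpow_pos hx (-p)
    positivity

theorem ex_nonneg {C x : ℝ} (hC : 0 ≤ C) (hx : 0 < x) (p : ℤ) : 0 ≤ ex C x p := by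
  unfold ex
  have := zpow_pos hx (-p)
  split_ifs
  · positivity
  · exact le_rfl

theorem iter_ex_le {C x : ℝ} (hC : 0 ≤ C) (hx : 0 < x) {N : ℤ → ℝ}
    (h : ∀ p, N p ≤ C * x ^ (-p)) (y : ℕ) (p : ℤ) :
    (TT^[y] N) p ≤ C * (1 + x) ^ y * x ^ (-p) := by
  induction y generalizing p with
  | zero => simpa using h p
  | succ y ih =>
    rw [Function.iterate_succ_apply']
    unfold TT
    have h1 := ih p
    have h2 := ih (p - 1)
    have e : x ^ (-(p - 1)) = x * x ^ (-p) := by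
      rw [show -(p - 1) = 1 + -p by ring, zpow_add₀ hx.ne', zpow_one]
    rw [e] at h2
    calc _ ≤ C * (1 + x) ^ y * x ^ (-p) + C * (1 + x) ^ y * (x * x ^ (-p)) := add_le_add h1 h2
      _ = C * (1 + x) ^ (y + 1) * x ^ (-p) := by ring

theorem TT_iter_nonneg {N : ℤ → ℝ} (h : ∀ p, 0 ≤ N p) (y : ℕ) : ∀ p, 0 ≤ (TT^[y] N) p := by
  induction y with
  | zero => exact h
  | succ y ih =>
    rw [Function.iterate_succ']
    exact TT_nonneg ih

/-- products of exponentials -/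
theorem prod_exp_le {x : ℝ} (hx0 : 0 < x) (hx1 : x ≤ 1) {D : ℝ} (hD : 0 ≤ D) {f : ι → ℝ}
    {j : ι → ℤ} (hf0 : ∀ l, 0 ≤ f l) (hf : ∀ l, f l ≤ D * x ^ (-(j l))) {s : ℤ}
    (hj : ∑ l, j l ≤ s) : ∏ l, f l ≤ D ^ (Fintype.card ι) * x ^ (-s) := by
  have h1 : ∏ l, f l ≤ ∏ l, (D * x ^ (-(j l))) :=
    prod_le_prod (fun l _ => hf0 l) (fun l _ => hf l)
  have h2 : ∏ l, (D * x ^ (-(j l))) = D ^ (Fintype.card ι) * x ^ (-∑ l, j l) := by
    rw [prod_mul_distrib, prod_const, card_univ]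
    congr 1
    rw [← sum_neg_distrib]
    have : ∀ s : Finset ι, ∏ l ∈ s, x ^ (-(j l)) = x ^ (∑ l ∈ s, -(j l)) := by
      intro s
      induction s using Finset.induction_on with
      | empty => simp
      | insert a s ha ih => rw [prod_insert ha, sum_insert ha, zpow_add₀ hx0.ne', ih]
    exact this univ
  rw [h2] at h1
  refine h1.trans (mul_le_mul_of_nonneg_left ?_ (pow_nonneg hD _))
  exact zpow_le_zpow_right_of_le_one₀ hx0 hx1 (by omega)

/-- **Theorem G**: exponential majorants. -/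
theorem thm_G [Nonempty ι] {x : ℝ} (hx0 : 0 < x) (hx1 : x ≤ 1)
    (hx : ∀ X : ℝ, x ≤ X → X ≤ 1 → (1 + X) ^ (Fintype.card ι) ≤ 2 ^ (Fintype.card ι) * X)
    (hx2 : (1 + x) ^ (Fintype.card ι) ≤ 2)
    (W : ℕ) {α : ℤ} (hα : -1 ≤ α) {N : ℤ → ℝ} {C : ℝ} (hC : 0 < C) (hN : ∀ p, 0 ≤ N p)
    (hneg : ∀ p < 0, N p = 0) (h : ∀ p, 0 ≤ p → N p ≤ C * x ^ (-p)) :
    Bd ι W α N (2 ^ (Fintype.card ι * W) * (C ^ (Fintype.card ι) * x ^ (-α))) := by
  set k := Fintype.card ι with hk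
  have hk1 : 1 ≤ k := Fintype.card_pos
  have hle : ∀ p, N p ≤ ex C x p := by
    intro p
    unfold ex
    split_ifs with hp
    · exact h p hp
    · exact (hneg p (by omega)).le
  refine Bd.mono_fun ?_ hN hle
  have hpos : ∀ p : ℤ, 0 ≤ p → 0 < ex C x p := by
    intro p hp
    unfold ex
    rw [if_pos hp]
    have := zpow_pos hx0 (-p)
    positivity
  have hneg' : ∀ p < 0, ex C x p = 0 := by
    intro p hp
    unfold ex
    rw [if_neg (by omega)]
  have hmono : Monotone (ex C x) := by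
    intro p q hpq
    unfold ex
    by_cases hp : 0 ≤ p
    · rw [if_pos hp, if_pos (hp.trans hpq)]
      exact mul_le_mul_of_nonneg_left (zpow_le_zpow_right_of_le_one₀ hx0 hx1 (by omega)) hC.le
    · rw [if_neg hp]
      exact ex_nonneg hC.le hx0 q
  refine thm_A hx0 hx W α (ex C x) _ (ex_nonneg hC.le hx0) hneg' hmono hα ?_ ?_ ?_
  · have := zpow_pos hx0 (-α)
    positivity
  · refine HH_of_pow hk1 hx0 (ex_nonneg hC.le hx0) hneg' hpos (fun j hj => ?_)
    have e1 : x * ex C x (j + 1) = ex C x j := by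
      unfold ex
      rw [if_pos hj, if_pos (by omega), show -(j + 1) = -j - 1 by ring, zpow_sub₀ hx0.ne',
        zpow_one]
      field_simp
    rw [e1]
    have h0 := hpos j hj
    have h1 : ex C x j ≤ ex C x j + x * ex C x (j - 1) := by
      have := mul_nonneg hx0.le (ex_nonneg hC.le hx0 (j - 1))
      linarith
    have h2 : ex C x j ^ (k - 1) ≤ (ex C x j + x * ex C x (j - 1)) ^ (k - 1) :=
      pow_le_pow_left₀ h0.le h1 _
    calc ((1 + x) * ex C x j) ^ k = (1 + x) ^ k * ex C x j ^ k := by rw [mul_pow]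
      _ ≤ 2 * ex C x j ^ k := mul_le_mul_of_nonneg_right hx2 (pow_nonneg h0.le _)
      _ = (ex C x j + ex C x j) * ex C x j ^ (k - 1) := by
          obtain ⟨m, hm⟩ : ∃ m, k = m + 1 := ⟨k - 1, by omega⟩
          rw [hm, Nat.add_sub_cancel, pow_succ]; ring
      _ ≤ _ := mul_le_mul_of_nonneg_left h2 (by linarith)
  · intro y hy j hj
    have hb := prod_exp_le hx0 hx1 (D := C * (1 + x) ^ y) (by positivity)
      (f := fun l => (TT^[y] (ex C x)) (j l)) (j := j)
      (fun l => TT_iter_nonneg (ex_nonneg hC.le hx0) y _)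
      (fun l => iter_ex_le hC.le hx0 (ex_le hC.le hx0) y _) hj
    have hz : x ^ (-(α + (y : ℤ))) = x ^ (-α) * (x ^ y)⁻¹ := by
      rw [neg_add, zpow_add₀ hx0.ne', zpow_neg x (y : ℤ), zpow_natCast]
    rw [hz, mul_pow, ← pow_mul, ← hk] at hb
    have hxx := hx x le_rfl hx1
    have h5 : (1 + x) ^ (y * k) * (x ^ y)⁻¹ ≤ 2 ^ (k * y) := by
      rw [← div_eq_mul_inv, div_le_iff₀ (by positivity), mul_comm y k, pow_mul, pow_mul, ← mul_pow]
      exact pow_le_pow_left₀ (by positivity) hxx y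
    calc 2 ^ (k * (W - y)) * ∏ l, (TT^[y] (ex C x)) (j l)
        ≤ 2 ^ (k * (W - y)) * (C ^ k * (1 + x) ^ (y * k) * (x ^ (-α) * (x ^ y)⁻¹)) :=
          mul_le_mul_of_nonneg_left hb (by positivity)
      _ = 2 ^ (k * (W - y)) * (C ^ k * x ^ (-α)) * ((1 + x) ^ (y * k) * (x ^ y)⁻¹) := by ring
      _ ≤ 2 ^ (k * (W - y)) * (C ^ k * x ^ (-α)) * 2 ^ (k * y) := by
          have := zpow_pos hx0 (-α)
          exact mul_le_mul_of_nonneg_left h5 (by positivity)
      _ = 2 ^ (k * W) * (C ^ k * x ^ (-α)) := by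
          have e : k * W = k * (W - y) + k * y := by
            rw [← mul_add, Nat.sub_add_cancel hy]
          rw [e, pow_add]; ring

end Pool.Agent.H90.EF
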