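import Pool.Agent.H79.EF.Defs
import Pool.Agent.H90.EF.Mix
import Pool.Agent.H90.EF.ThmG

set_option autoImplicit false

open Finset

namespace Pool.Agent.H90.EF

open Pool.Agent.H79.EF

/-- the chord inequality for `(1 + X)^k` -/
theorem chord {k : ℕ} {x : ℝ} (hx0 : 0 < x) (hx1 : x < 1) (h1 : (1 + x) ^ k ≤ 2 ^ k * x) :
    ∀ X : ℝ, x ≤ X → X ≤ 1 → (1 + X) ^ k ≤ 2 ^ k * X := by
  intro X hX hX1
  have hd : 0 < 1 - x := by linarith
  have hconv := (convexOn_pow (𝕜 := ℝ) k).2 (show (1 + x) ∈ Set.Ici (0 : ℝ) from by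
    simp; linarith) (show (2 : ℝ) ∈ Set.Ici (0 : ℝ) from by simp)
    (show 0 ≤ (1 - X) / (1 - x) from div_nonneg (by linarith) hd.le)
    (show 0 ≤ (X - x) / (1 - x) from div_nonneg (by linarith) hd.le)
    (by field_simp; ring)
  simp only [smul_eq_mul] at hconv
  have e1 : (1 - X) / (1 - x) * (1 + x) + (X - x) / (1 - x) * 2 = 1 + X := by
    field_simp; ring
  rw [e1] at hconv
  refine hconv.trans ?_
  have h2 : (1 - X) / (1 - x) * (1 + x) ^ k ≤ (1 - X) / (1 - x) * (2 ^ k * x) :=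
    mul_le_mul_of_nonneg_left h1 (div_nonneg (by linarith) hd.le)
  calc (1 - X) / (1 - x) * (1 + x) ^ k + (X - x) / (1 - x) * 2 ^ k
      ≤ (1 - X) / (1 - x) * (2 ^ k * x) + (X - x) / (1 - x) * 2 ^ k := by linarith
    _ = 2 ^ k * X := by field_simp; ring

theorem thmA2 {k : ℕ} (hk : 1 ≤ k) {x : ℝ} (hx0 : 0 < x) (hx1 : x < 1)
    (h1 : (1 + x) ^ k ≤ 2 ^ k * x) {N : ℤ → ℝ} (hN : ∀ j, 0 ≤ N j) (hneg : ∀ j < 0, N j = 0)
    (hpos : ∀ j, 0 ≤ j → 0 < N j) (hm : Monotone N)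
    (hH : ∀ j, 0 ≤ j → HHj k x N j) {α : ℤ} (hα : -1 ≤ α) {W : ℕ} {K : ℝ} (hK : 0 ≤ K)
    (hB : ∀ y ≤ W, ∀ j : Fin k → ℤ, ∑ l, j l ≤ α + y →
      2 ^ (k * (W - y)) * ∏ l, (TT^[y] N) (j l) ≤ K) :
    Bd (Fin k) W α N K := by
  haveI : Nonempty (Fin k) := ⟨⟨0, by omega⟩⟩
  have hc : Fintype.card (Fin k) = k := Fintype.card_fin k
  refine thm_A hx0 (by rw [hc]; exact chord hx0 hx1 h1) W α N K hN hneg hm hα hK ?_ ?_
  · rw [hc]
    exact HH_of_pow hk hx0 hN hneg hpos hH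
  · intro y hy j hj
    rw [hc]
    exact hB y hy j hj

theorem thmG {k : ℕ} (hk : 1 ≤ k) {x : ℝ} (hx0 : 0 < x) (hx1 : x < 1)
    (h1 : (1 + x) ^ k ≤ 2 ^ k * x) (h2 : (1 + x) ^ k ≤ 2) {W : ℕ} {α : ℤ} (hα : -1 ≤ α)
    {N : ℤ → ℝ} {C : ℝ} (hC : 0 < C) (hN : ∀ p, 0 ≤ N p) (hneg : ∀ p < 0, N p = 0)
    (h : ∀ p, 0 ≤ p → N p ≤ C * x ^ (-p)) :
    Bd (Fin k) W α N (2 ^ (k * W) * (C ^ k * x ^ (-α))) := by
  haveI : Nonempty (Fin k) := ⟨⟨0, by omega⟩⟩
  have hc : Fintype.card (Fin k) = k := Fintype.card_fin k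
  have := thm_G (ι := Fin k) hx0 hx1.le (by rw [hc]; exact chord hx0 hx1 h1) (by rw [hc]; exact h2)
    W hα hC hN hneg h
  rw [hc] at this
  exact this

theorem step3 {x : ℝ} (hx0 : 0 < x) (hx1 : x < 1) (hx : (1 + x) ^ 3 ≤ 2 ^ 3 * x)
    {α W : ℕ} {N : ℤ → ℝ} (hN : LC N) (hg : Good x α N) {K : ℝ} (hK : 0 ≤ K)
    (h1 : Bd (Fin 3) W α N (K / 8)) (h2 : Bd (Fin 3) W (α + 1) (TT N) K) :
    Bd (Fin 3) (W + 1) α N K := by
  have hN0 : ∀ p, 0 ≤ N p := by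
    intro p
    rcases lt_or_ge p 0 with h | h
    · rw [hN.neg p h]
    · exact (hN.pos p h).le
  refine step_mix hx0 (chord hx0 hx1 hx) hN0 hN.neg hN.pos hN.mono (by omega) hK
    (κ := ((α + 2) / 2 : ℕ)) (a := 4) (b := 1) ?_ ?_ ?_ h2 (by norm_num)
  · have : α + 1 ≤ 2 * ((α + 2) / 2) := by omega
    exact_mod_cast this
  · intro j hj
    obtain ⟨n, rfl⟩ := Int.eq_ofNat_of_zero_le hj
    have hr0 : ff N x 0 (n : ℤ) = N n + x * N (n + 1) := by
      unfold ff; rw [if_pos (by omega)]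
    rcases Nat.lt_or_ge α (2 * n) with h | h
    · have hr2 : ff N x (((α + 2) / 2 : ℕ) : ℤ) (n : ℤ) = N n + x * N (n + 1) := by
        unfold ff
        rw [if_pos (by exact_mod_cast (by omega : (α + 2) / 2 ≤ n))]
      rcases Nat.lt_or_ge α n with h3 | h3
      · have hr1 : ff N x ((α : ℤ) + 1) (n : ℤ) = N n + x * N (n + 1) := by
          unfold ff; rw [if_pos (by exact_mod_cast (by omega : α + 1 ≤ n))]
        rw [hr0, hr1, hr2]
        have h4 : (1 + x) * N n ≤ N n + x * N (n + 1) := by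
          have h5 : N n ≤ N (n + 1) := hN.mono (by omega)
          have := mul_le_mul_of_nonneg_left h5 hx0.le
          linarith
        calc ((1 + x) * N n) ^ (4 + 2 * 4 + 3 * 1) ≤ (N n + x * N (n + 1)) ^ (4 + 2 * 4 + 3 * 1) :=
              pow_le_pow_left₀ (mul_nonneg (by linarith) (hN0 _)) h4 _
          _ = _ := by ring
      · have hr1 : ff N x ((α : ℤ) + 1) (n : ℤ) = N n + x * N (n - 1) := by
          unfold ff; rw [if_neg (by push Not; exact_mod_cast (by omega : n < α + 1))]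
        rw [hr0, hr1, hr2]
        refine (hg.2 n h h3).trans (le_of_eq ?_)
        ring
    · have hr1 : ff N x ((α : ℤ) + 1) (n : ℤ) = N n + x * N (n - 1) := by
        unfold ff; rw [if_neg (by push Not; exact_mod_cast (by omega : n < α + 1))]
      have hr2 : ff N x (((α + 2) / 2 : ℕ) : ℤ) (n : ℤ) = N n + x * N (n - 1) := by
        unfold ff
        rw [if_neg (by push Not; exact_mod_cast (by omega : n < (α + 2) / 2))]
      rw [hr0, hr1, hr2]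
      refine (hg.1 n h).trans (le_of_eq ?_)
      ring
  · rw [show (2 : ℝ) ^ 3 = 8 by norm_num]
    exact h1

end Pool.Agent.H90.EF
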