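import Pool.Agent.H90.EF.Skew
import Pool.Agent.H93.EF.LC

/-!
# The case `k ≥ 4` (helper90): `Fin5` at `α = 0`
-/

set_option autoImplicit false

open Finset

namespace Pool.Agent.H90.EF

open Pool.Agent.H93.EF (Nb)
open Pool.Agent.H79.EF (HHj Fin5 ratio_anti lc_Nb)

theorem four_mul_le (k : ℕ) (hk : 4 ≤ k) : 4 * k ≤ 2 ^ k := by
  induction k, hk using Nat.le_induction with
  | base => norm_num
  | succ n hn ih => rw [pow_succ]; omega

theorem nine_mul_le (k : ℕ) (hk : 5 ≤ k) : 9 * k ≤ 2 * 2 ^ k := by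
  induction k, hk using Nat.le_induction with
  | base => norm_num
  | succ n hn ih => rw [pow_succ]; omega

/-- the parameter `x` -/
noncomputable def xk (k : ℕ) : ℝ := 3 / (2 * 2 ^ k)

theorem xk_pos (k : ℕ) : 0 < xk k := by unfold xk; positivity

theorem k_xk_le {k : ℕ} (hk : 4 ≤ k) : k * xk k ≤ 3 / 8 := by
  have h : (4 * k : ℝ) ≤ 2 ^ k := by exact_mod_cast four_mul_le k hk
  unfold xk
  rw [mul_div_assoc', div_le_div_iff₀ (by positivity) (by norm_num)]
  linarith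

theorem xk_lt_one {k : ℕ} (hk : 4 ≤ k) : xk k < 1 := by
  have h1 := k_xk_le hk
  have h2 := xk_pos k
  have h3 : (4 : ℝ) ≤ k := by exact_mod_cast hk
  nlinarith

theorem one_add_xk_pow {k : ℕ} (hk : 4 ≤ k) : (1 + xk k) ^ k ≤ 3 / 2 := by
  rcases Nat.lt_or_ge k 5 with h | h
  · have : k = 4 := by omega
    subst this
    unfold xk
    norm_num
  · have h9 : (9 * k : ℝ) ≤ 2 * 2 ^ k := by exact_mod_cast nine_mul_le k h
    have hx := xk_pos k
    have hx1 := xk_lt_one hk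
    have e1 : k * xk k ≤ 1 / 3 := by
      unfold xk
      rw [mul_div_assoc', div_le_div_iff₀ (by positivity) (by norm_num)]
      linarith
    have e2 : 1 + (k : ℝ) * (-xk k) ≤ (1 + -xk k) ^ k := one_add_mul_le_pow (by linarith) k
    have e3 : (1 + xk k) ^ k * (1 + -xk k) ^ k ≤ 1 := by
      rw [← mul_pow]
      apply pow_le_one₀
      · nlinarith
      · nlinarith
    have e4 : 0 ≤ (1 + xk k) ^ k := by positivity
    nlinarith

theorem two_pow_xk (k : ℕ) : 2 ^ k * xk k = 3 / 2 := by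
  unfold xk
  have : (2 : ℝ) ^ k ≠ 0 := by positivity
  field_simp

/-- the ratio is at least `p / (m + 1)` -/
theorem ratio_ge {m p : ℕ} (hp : p ≤ m + 1) :
    (p : ℝ) * Nb m p ≤ (m + 1) * Nb m ((p : ℤ) - 1) := by
  rcases Nat.eq_zero_or_pos p with h | h
  · subst h
    have := Nb_nonneg' m ((0 : ℕ) - 1 : ℤ)
    simp only [Nat.cast_zero, zero_mul]
    positivity
  · obtain ⟨q, rfl⟩ : ∃ q, p = q + 1 := ⟨p - 1, by omega⟩
    have hr := choose_rec m q (by omega)
    have e1 : Nb m ((q + 1 : ℕ) : ℤ) = Nb m q + (m.choose (q + 1) : ℝ) := by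
      rw [Nat.cast_add, Nat.cast_one]
      exact Nb_succ' m q
    have e2 : (((q + 1 : ℕ) : ℤ) - 1) = (q : ℤ) := by push_cast; ring
    rw [e1, e2]
    have hc := choose_le_Nb m q
    have hqm : (q : ℝ) ≤ m := by exact_mod_cast (by omega : q ≤ m)
    push_cast
    nlinarith [mul_le_mul_of_nonneg_left hc (by linarith : (0 : ℝ) ≤ (m : ℝ) - q)]

/-- the critical level exists -/
theorem exists_crit {k : ℕ} {x : ℝ} (hx0 : 0 < x) (hk1 : 1 ≤ k) (hkx : k * x ≤ 3 / 8) (t : ℕ) :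
    ∃ c : ℕ, x * Nb (t + k * c) ((c : ℤ) + 1) ≤ Nb (t + k * c) c := by
  refine ⟨t, ?_⟩
  have h := ratio_ge (m := t + k * t) (p := t + 1) (by nlinarith)
  have e : (((t + 1 : ℕ) : ℤ) - 1) = (t : ℤ) := by push_cast; ring
  have e' : ((t + 1 : ℕ) : ℤ) = (t : ℤ) + 1 := by push_cast; ring
  rw [e, e'] at h
  push_cast at h
  have hk1' : (1 : ℝ) ≤ k := by exact_mod_cast hk1
  have hx : x ≤ 3 / 8 := by nlinarith
  have ht : (0 : ℝ) ≤ t := by positivity
  have hN1 := Nb_nonneg' (t + k * t) ((t : ℤ) + 1)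
  have hN0 := Nb_nonneg' (t + k * t) (t : ℤ)
  have hb : x * ((t : ℝ) + k * t + 1) ≤ t + 1 := by nlinarith
  have hpos : (0 : ℝ) < (t : ℝ) + k * t + 1 := by positivity
  have hA : x * ((t : ℝ) + k * t + 1) * Nb (t + k * t) ((t : ℤ) + 1) ≤
      (t + 1) * Nb (t + k * t) ((t : ℤ) + 1) := mul_le_mul_of_nonneg_right hb hN1
  have hB : ((t : ℝ) + k * t + 1) * (x * Nb (t + k * t) ((t : ℤ) + 1)) ≤
      ((t : ℝ) + k * t + 1) * Nb (t + k * t) (t : ℤ) := by linarith
  exact le_of_mul_le_mul_left hB hpos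

theorem fin_large {k : ℕ} (hk : 4 ≤ k) (t : ℕ) : ∃ c : ℕ, ∃ ρ : ℝ, Fin5 k t 0 c (xk k) ρ := by
  classical
  have hx0 := xk_pos k
  have hx1 := xk_lt_one hk
  have hkx := k_xk_le hk
  set x := xk k with hxd
  have hkR : (4 : ℝ) ≤ k := by exact_mod_cast hk
  have hex := exists_crit hx0 (by omega) hkx t
  set c := Nat.find hex with hc
  have h2 : x * Nb (t + k * c) ((c : ℤ) + 1) ≤ Nb (t + k * c) c := Nat.find_spec hex
  rcases Nat.eq_zero_or_pos c with h0 | h0
  · refine ⟨c, 1, by omega, h2, ?_, Or.inl (by rw [h0]; omega)⟩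
    rw [h0]
    have : Nb (t + k * 0) ((0 : ℕ) - 1 : ℤ) = 0 := Nb_neg' _ (by norm_num)
    rw [this]
    have := Nb_nonneg' (t + k * 0) ((0 : ℕ) : ℤ)
    positivity
  obtain ⟨d, hd⟩ : ∃ d, c = d + 1 := ⟨c - 1, by omega⟩
  have hmin : ¬ (x * Nb (t + k * d) ((d : ℤ) + 1) ≤ Nb (t + k * d) d) :=
    Nat.find_min hex (by omega)
  push Not at hmin
  have e1 : ((c : ℕ) : ℤ) = (d : ℤ) + 1 := by rw [hd]; push_cast; ring
  have e2 : (c : ℤ) - 1 = (d : ℤ) := by rw [e1]; ring
  -- the upper bound of `c`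
  have hr := ratio_ge (m := t + k * d) (p := c) (by nlinarith)
  rw [e2, e1] at hr
  have hNd1 : 0 < Nb (t + k * d) ((d : ℤ) + 1) := by
    have := Nb_pos' (t + k * d) (d + 1)
    push_cast at this
    exact this
  have hcb : (c : ℝ) < x * (t + k * d + 1) := by
    have h3 : (c : ℝ) * Nb (t + k * d) ((d : ℤ) + 1) <
        x * (t + k * d + 1) * Nb (t + k * d) ((d : ℤ) + 1) := by
      push_cast at hr
      have : (0 : ℝ) < (t : ℝ) + k * d + 1 := by positivity
      nlinarith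
    exact lt_of_mul_lt_mul_right h3 hNd1.le
  have hdR : (d : ℝ) = c - 1 := by rw [hd]; push_cast; ring
  rw [hdR] at hcb
  have hc1 : (1 : ℝ) ≤ c := by exact_mod_cast h0
  set y : ℝ := k * x with hy
  have hy0 : 0 < y := by positivity
  -- `k c (1 - y) < y T`, `T = t - k + 1`
  have hc2 : (k : ℝ) * c * (1 - y) < y * (t - k + 1) := by
    have : (k : ℝ) * c < k * (x * (t + k * (c - 1) + 1)) :=
      mul_lt_mul_of_pos_left hcb (by linarith)
    have e : (k : ℝ) * (x * (t + k * (c - 1) + 1)) = y * (t + k * c - k + 1) := by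
      rw [hy]; ring
    rw [e] at this
    linarith
  have hkc : (4 : ℝ) ≤ k * c := by nlinarith
  have hT : (0 : ℝ) < t - k + 1 := by
    by_contra hcon
    push Not at hcon
    have i1 : y * ((t : ℝ) - k + 1) ≤ 0 := mul_nonpos_of_nonneg_of_nonpos hy0.le hcon
    have i2 : 0 < (k : ℝ) * c * (1 - y) := by
      apply mul_pos (by linarith)
      linarith
    linarith
  have hc3 : (k : ℝ) * c < 3 / 5 * (t - k + 1) := by
    have i1 : (k : ℝ) * c * (5 / 8) ≤ k * c * (1 - y) :=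
      mul_le_mul_of_nonneg_left (by linarith) (by linarith)
    have i2 : y * ((t : ℝ) - k + 1) ≤ 3 / 8 * (t - k + 1) :=
      mul_le_mul_of_nonneg_right hkx hT.le
    linarith
  have hkkc : (k : ℝ) ≤ k * c := by nlinarith
  have hct : c ≤ t := by
    have : (c : ℝ) ≤ t := by nlinarith
    exact_mod_cast this
  have hlin : ∀ j : ℕ, j ≤ c → HHj k x (Nb t) j := by
    intro j hj
    unfold HHj
    have hjt : j ≤ t := by omega
    have hjR : (j : ℝ) ≤ c := by exact_mod_cast hj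
    have hjtR : (j : ℝ) ≤ t := by exact_mod_cast hjt
    have hj0 : (0 : ℝ) ≤ j := by positivity
    have hcond : ((1 : ℕ) + ((k - 1 : ℕ) : ℝ)) * (2 * ((j : ℝ) + 1) + x / (1 + x) *
        (((t : ℝ) - j) * ((t.choose j : ℝ) / Nb t j))) ≤ 2 * ((1 : ℕ) : ℝ) * (t + 1) := by
      have e : ((1 : ℕ) + ((k - 1 : ℕ) : ℝ)) = (k : ℝ) := by
        rw [Nat.cast_sub (by omega)]; push_cast; ring
      rw [e]
      have hl1 : (t.choose j : ℝ) / Nb t j ≤ 1 := by
        rw [div_le_one (Nb_pos' t j)]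
        exact choose_le_Nb t j
      have hl0 : 0 ≤ (t.choose j : ℝ) / Nb t j := div_nonneg (by positivity) (Nb_pos' t j).le
      have hu : x / (1 + x) ≤ x := by
        rw [div_le_iff₀ (by linarith)]
        nlinarith
      have hu0 : 0 ≤ x / (1 + x) := by positivity
      have i1 : ((t : ℝ) - j) * ((t.choose j : ℝ) / Nb t j) ≤ t := by nlinarith
      have i0 : 0 ≤ ((t : ℝ) - j) * ((t.choose j : ℝ) / Nb t j) :=
        mul_nonneg (by linarith) hl0
      have i2 : x / (1 + x) * (((t : ℝ) - j) * ((t.choose j : ℝ) / Nb t j)) ≤ x * t :=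
        mul_le_mul hu i1 i0 hx0.le
      have i3 : (k : ℝ) * (2 * ((j : ℝ) + 1) + x / (1 + x) *
          (((t : ℝ) - j) * ((t.choose j : ℝ) / Nb t j))) ≤ k * (2 * (j + 1) + x * t) :=
        mul_le_mul_of_nonneg_left (by linarith) (by linarith)
      have i4 : (k : ℝ) * (2 * (j + 1) + x * t) = 2 * (k * j) + 2 * k + y * t := by
        rw [hy]; ring
      have i5 : (k : ℝ) * j ≤ k * c := mul_le_mul_of_nonneg_left hjR (by linarith)
      have i6 : y * (t : ℝ) ≤ 3 / 8 * t := mul_le_mul_of_nonneg_right hkx (by positivity)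
      push_cast
      linarith
    have := key_lin (m := t) (a := 1) (b := k - 1) (j := j) one_pos (by omega) hx0 hjt
      (by exact_mod_cast hcond)
    rw [show 1 + (k - 1) = k by omega, pow_one] at this
    exact this
  have hN1 : 0 < Nb t ((c : ℤ) + 1) := by
    have := Nb_pos' t (c + 1)
    push_cast at this
    exact this
  have hN0 := Nb_pos' t c
  refine ⟨c, Nb t c / Nb t ((c : ℤ) + 1), by omega, h2, ?_, Or.inr ?_⟩
  · -- the ratio before the critical level
    have ha := ratio_anti (n := t + k * d) (m := t + k * c)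
      (by rw [hd]; nlinarith) (c : ℤ)
    rw [e2, e1] at ha
    rw [e2, e1]
    have hNm : 0 ≤ Nb (t + k * c) ((d : ℤ) + 1) := Nb_nonneg' _ _
    have i1 : Nb (t + k * d) d * Nb (t + k * c) ((d : ℤ) + 1) ≤
        (x * Nb (t + k * d) ((d : ℤ) + 1)) * Nb (t + k * c) ((d : ℤ) + 1) :=
      mul_le_mul_of_nonneg_right hmin.le hNm
    have i2 : Nb (t + k * d) ((d : ℤ) + 1) * Nb (t + k * c) d ≤
        Nb (t + k * d) ((d : ℤ) + 1) * (x * Nb (t + k * c) ((d : ℤ) + 1)) := by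
      linarith
    exact le_of_mul_le_mul_left i2 hNd1
  · rw [add_zero]
    have hdd : Nb t c / (Nb t c / Nb t ((c : ℤ) + 1)) = Nb t ((c : ℤ) + 1) := by
      field_simp
    refine ⟨by positivity, ?_, ?_, ?_, ?_, ?_⟩
    · rw [div_mul_cancel₀ _ hN1.ne']
    · have := (lc_Nb t).lc c
      rw [div_mul_eq_mul_div, le_div_iff₀ hN1]
      nlinarith
    · rw [hdd]
      have : Nb (t + k * c) ((c : ℤ) + 1) + Nb t ((c : ℤ) + 1) - Nb t ((c : ℤ) + 1) =
          Nb (t + k * c) ((c : ℤ) + 1) := by ring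
      rw [this]
      exact h2
    · intro j hj
      exact hlin j hj.le
    · rw [hdd]
      exact hlin c le_rfl

/-- `k ≥ 4`: there is a suitable `x`, and every state `(t, 0)` is finished -/
theorem fin_of_four_le {k : ℕ} (hk : 4 ≤ k) : ∃ x : ℝ, 0 < x ∧ x < 1 ∧
    (1 + x) ^ k ≤ 2 ^ k * x ∧ (1 + x) ^ k ≤ 2 ∧ ∀ t : ℕ, ∃ c : ℕ, ∃ ρ : ℝ, Fin5 k t 0 c x ρ :=
  ⟨xk k, xk_pos k, xk_lt_one hk, by rw [two_pow_xk]; exact one_add_xk_pow hk,
    by linarith [one_add_xk_pow hk], fin_large hk⟩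

end Pool.Agent.H90.EF
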