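import Pool.Agent.H90.EF.FinThree
import Pool.Agent.H84.EF.Stage1
import Pool.Agent.H91.EF.Small

/-!
# The numeric input for `k = 3` (helper90, from modules of helpers 84, 91 and 90)
-/

set_option autoImplicit false

open Finset

namespace Pool.Agent.H90.EF

open Pool.Agent.H93.EF (Nb)
open Pool.Agent.H79.EF (HHj Fin5 Good)

theorem num3 (t : ℕ) : ∃ α₁ c : ℕ, ∃ ρ : ℝ, Fin5 3 t α₁ c (17 / 72) ρ ∧
    ∀ α < α₁, Good (17 / 72) α (Nb (t + α)) := by
  have hF : ∃ (c : ℕ) (ρ : ℝ), Fin5 3 t (7 * (t - 1) / 11 - 1) c (17 / 72) ρ := by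
    rcases Nat.lt_or_ge t 100 with h | h
    · exact Pool.Agent.H91.EF.fin_small t h
    · exact fin_three (by omega)
  obtain ⟨c, ρ, hF⟩ := hF
  refine ⟨7 * (t - 1) / 11 - 1, c, ρ, hF, ?_⟩
  intro α hα
  exact Pool.Agent.H84.EF.good_of_le (by omega)

end Pool.Agent.H90.EF
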