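import Pool.Agent.H79.EF.Defs

/-!
# One-family inequalities from a linear condition (helper90)

`skew`: `s ^ a * (1 - s) ^ b ≤ s' ^ a * (1 - s') ^ b` when `a ≤ b`, `s ≤ s'` and the midpoint of
`s, s'` is at most `a / (a + b)`.

`key_lin`: the condition `((1 + x) N j) ^ (a + b) ≤ (N j + x N (j+1)) ^ a (N j + x N (j-1)) ^ b`
for `N = Nb m` follows from a linear inequality.
-/

set_option autoImplicit false

open Finset

namespace Pool.Agent.H90.EF

open Pool.Agent.H93.EF (Nb)
open Pool.Agent.H79.EF (HHj Fin5 Good)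

/-- `φ(s) = a log s + b log (1 - s)` is nondecreasing on `(0, a/(a+b)]` -/
theorem phi_mono {a b s s' : ℝ} (ha : 0 < a) (hb : 0 < b) (hs : 0 < s) (hss : s ≤ s')
    (h1 : s' < 1) (h : (a + b) * s' ≤ a) :
    a * Real.log s + b * Real.log (1 - s) ≤ a * Real.log s' + b * Real.log (1 - s') := by
  have hs' : 0 < s' := lt_of_lt_of_le hs hss
  have e1 : Real.log (s / s') ≤ s / s' - 1 := Real.log_le_sub_one_of_pos (div_pos hs hs')
  have h1s : 0 < 1 - s' := by linarith
  have h1s2 : 0 < 1 - s := by linarith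
  have e2 : Real.log ((1 - s) / (1 - s')) ≤ (1 - s) / (1 - s') - 1 :=
    Real.log_le_sub_one_of_pos (div_pos h1s2 h1s)
  rw [Real.log_div hs.ne' hs'.ne'] at e1
  rw [Real.log_div h1s2.ne' h1s.ne'] at e2
  have e3 : a * (s / s' - 1) + b * ((1 - s) / (1 - s') - 1) ≤ 0 := by
    have : a * (s / s' - 1) + b * ((1 - s) / (1 - s') - 1) =
        (s' - s) * ((a + b) * s' - a) / (s' * (1 - s')) := by
      field_simp
      ring
    rw [this]
    apply div_nonpos_of_nonpos_of_nonneg
    · apply mul_nonpos_of_nonneg_of_nonpos <;> linarith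
    · positivity
  nlinarith [mul_le_mul_of_nonneg_left e1 ha.le, mul_le_mul_of_nonneg_left e2 hb.le]

/-- skewness: for `a ≤ b` and `a z = b w`, `a (log (1+z) - log (1-z)) ≥ b (log (1+w) - log (1-w))` -/
theorem artanh_comp {a b z w : ℝ} (hw : 0 ≤ w) (hwz : w ≤ z) (hz : z < 1)
    (ha : 0 < a) (h : a * z = b * w) :
    b * (Real.log (1 + w) - Real.log (1 - w)) ≤ a * (Real.log (1 + z) - Real.log (1 - z)) := by
  have hz1 : |z| < 1 := by rw [abs_of_nonneg (by linarith)]; exact hz
  have hw1 : |w| < 1 := by rw [abs_of_nonneg hw]; linarith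
  have s1 := (Real.hasSum_log_sub_log_of_abs_lt_one hz1).mul_left a
  have s2 := (Real.hasSum_log_sub_log_of_abs_lt_one hw1).mul_left b
  refine hasSum_le (fun n => ?_) s2 s1
  have e1 : b * (2 * (1 / (2 * (n : ℝ) + 1)) * w ^ (2 * n + 1)) =
      (2 * (1 / (2 * (n : ℝ) + 1))) * (b * w) * w ^ (2 * n) := by ring
  have e2 : a * (2 * (1 / (2 * (n : ℝ) + 1)) * z ^ (2 * n + 1)) =
      (2 * (1 / (2 * (n : ℝ) + 1))) * (a * z) * z ^ (2 * n) := by ring
  rw [e1, e2, h]
  apply mul_le_mul_of_nonneg_left (pow_le_pow_left₀ hw hwz _)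
  rw [← h]
  have : 0 ≤ z := le_trans hw hwz
  positivity

theorem skew {a b : ℕ} (ha : 0 < a) (hab : a ≤ b) {s s' : ℝ} (hs : 0 < s) (hss : s ≤ s')
    (h1 : s' < 1) (h : ((a : ℝ) + b) * (s + s') ≤ 2 * a) :
    s ^ a * (1 - s) ^ b ≤ s' ^ a * (1 - s') ^ b := by
  have haR : (0 : ℝ) < a := by exact_mod_cast ha
  have habR : (a : ℝ) ≤ b := by exact_mod_cast hab
  have hbR : (0 : ℝ) < b := lt_of_lt_of_le haR habR
  have hs' : 0 < s' := lt_of_lt_of_le hs hss
  have h1s : 0 < 1 - s' := by linarith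
  have h1s2 : 0 < 1 - s := by linarith
  suffices hl : (a : ℝ) * Real.log s + b * Real.log (1 - s) ≤
      a * Real.log s' + b * Real.log (1 - s') by
    have p1 : 0 < s ^ a * (1 - s) ^ b := by positivity
    have p2 : 0 < s' ^ a * (1 - s') ^ b := by positivity
    rw [← Real.log_le_log_iff p1 p2, Real.log_mul (by positivity) (by positivity),
      Real.log_mul (by positivity) (by positivity), Real.log_pow, Real.log_pow, Real.log_pow,
      Real.log_pow]
    exact hl
  rcases le_total (((a : ℝ) + b) * s') a with h2 | h2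
  · exact phi_mono haR hbR hs hss h1 h2
  · set σ : ℝ := a / (a + b) with hσ
    have hab0 : (0 : ℝ) < a + b := by linarith
    have hσ0 : 0 < σ := div_pos haR hab0
    have hσa : ((a : ℝ) + b) * σ = a := by rw [hσ]; field_simp
    have hσb : ((a : ℝ) + b) * (1 - σ) = b := by linarith
    have hσ1 : σ ≤ s' := by
      have : ((a : ℝ) + b) * σ ≤ (a + b) * s' := by linarith
      exact le_of_mul_le_mul_left this hab0
    have hσ2 : 0 < 1 - σ := by linarith
    set δ : ℝ := s' - σ with hδ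
    have hδ0 : 0 ≤ δ := by linarith
    have hsd : s ≤ σ - δ := by
      have : ((a : ℝ) + b) * s ≤ (a + b) * (σ - δ) := by
        rw [hδ]
        nlinarith
      exact le_of_mul_le_mul_left this hab0
    have hs2 : 0 < σ - δ := lt_of_lt_of_le hs hsd
    have q1 := phi_mono haR hbR hs hsd (by linarith)
      (by nlinarith : ((a : ℝ) + b) * (σ - δ) ≤ a)
    have hσh : σ ≤ 1 - σ := by
      have : ((a : ℝ) + b) * σ ≤ (a + b) * (1 - σ) := by linarith
      exact le_of_mul_le_mul_left this hab0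
    have q2 := artanh_comp (a := (a : ℝ)) (b := (b : ℝ)) (z := δ / σ) (w := δ / (1 - σ))
      (by positivity) (by gcongr) (by rw [div_lt_one hσ0]; linarith) haR
      (by
        have e1 : (a : ℝ) * (δ / σ) = (a + b) * δ := by
          rw [← mul_div_assoc, div_eq_iff hσ0.ne']
          calc (a : ℝ) * δ = ((a + b) * σ) * δ := by rw [hσa]
            _ = (a + b) * δ * σ := by ring
        have e2 : (b : ℝ) * (δ / (1 - σ)) = (a + b) * δ := by
          rw [← mul_div_assoc, div_eq_iff hσ2.ne']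
          calc (b : ℝ) * δ = ((a + b) * (1 - σ)) * δ := by rw [hσb]
            _ = (a + b) * δ * (1 - σ) := by ring
        rw [e1, e2])
    have l1 : Real.log (1 + δ / σ) = Real.log s' - Real.log σ := by
      rw [← Real.log_div hs'.ne' hσ0.ne']
      congr 1
      rw [hδ]
      field_simp
      ring
    have l2 : Real.log (1 - δ / σ) = Real.log (σ - δ) - Real.log σ := by
      rw [← Real.log_div hs2.ne' hσ0.ne']
      congr 1
      field_simp
    have l3 : Real.log (1 + δ / (1 - σ)) = Real.log (1 - (σ - δ)) - Real.log (1 - σ) := by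
      rw [← Real.log_div (by linarith) hσ2.ne']
      congr 1
      field_simp
      ring
    have l4 : Real.log (1 - δ / (1 - σ)) = Real.log (1 - s') - Real.log (1 - σ) := by
      rw [← Real.log_div h1s.ne' hσ2.ne']
      congr 1
      rw [hδ]
      field_simp
      ring
    rw [l1, l2, l3, l4] at q2
    nlinarith

/-! ## values of `Nb` -/

theorem Nb_succ' (m j : ℕ) : Nb m ((j : ℤ) + 1) = Nb m j + (m.choose (j + 1) : ℝ) := by
  unfold Nb
  rw [show ((j : ℤ) + 1 + 1).toNat = (j + 1) + 1 by omega,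
    show ((j : ℤ) + 1).toNat = j + 1 by omega, sum_range_succ]

theorem Nb_pred' (m j : ℕ) : Nb m ((j : ℤ) - 1) = Nb m j - (m.choose j : ℝ) := by
  unfold Nb
  rw [show ((j : ℤ) - 1 + 1).toNat = j by omega,
    show ((j : ℤ) + 1).toNat = j + 1 by omega, sum_range_succ]
  ring

theorem Nb_zero' (m : ℕ) : Nb m 0 = 1 := by
  unfold Nb
  simp

theorem Nb_neg' (m : ℕ) {j : ℤ} (hj : j < 0) : Nb m j = 0 := by
  unfold Nb
  rw [show (j + 1).toNat = 0 by omega]
  simp

theorem Nb_nonneg' (m : ℕ) (j : ℤ) : 0 ≤ Nb m j := by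
  unfold Nb
  positivity

theorem Nb_pos' (m j : ℕ) : 0 < Nb m j := by
  unfold Nb
  rw [show ((j : ℤ) + 1).toNat = j + 1 by omega]
  have : (1 : ℝ) ≤ ∑ i ∈ range (j + 1), (m.choose i : ℝ) := by
    calc (1 : ℝ) = (m.choose 0 : ℝ) := by simp
      _ ≤ _ := single_le_sum (f := fun i => (m.choose i : ℝ)) (fun i _ => by positivity)
        (mem_range.mpr (by omega))
  linarith

theorem choose_le_Nb (m j : ℕ) : (m.choose j : ℝ) ≤ Nb m j := by
  have := Nb_nonneg' m ((j : ℤ) - 1)
  rw [Nb_pred'] at this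
  linarith

theorem choose_rec (m j : ℕ) (hj : j ≤ m) :
    ((j : ℝ) + 1) * (m.choose (j + 1) : ℝ) = ((m : ℝ) - j) * (m.choose j : ℝ) := by
  have h := Nat.choose_succ_right_eq m j
  have h2 : ((m.choose (j + 1) * (j + 1) : ℕ) : ℝ) = ((m.choose j * (m - j) : ℕ) : ℝ) := by
    exact_mod_cast h
  rw [Nat.cast_mul, Nat.cast_mul, Nat.cast_sub hj] at h2
  push_cast at h2
  linarith

/-- the one-family inequality from a linear condition -/
theorem key_lin {m a b j : ℕ} (ha : 0 < a) (hab : a ≤ b) {x : ℝ} (hx0 : 0 < x) (hj : j ≤ m)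
    (h : ((a : ℝ) + b) * (2 * (j + 1) + x / (1 + x) * ((m - j) * (m.choose j / Nb m j))) ≤
      2 * a * (m + 1)) :
    ((1 + x) * Nb m j) ^ (a + b) ≤
      (Nb m j + x * Nb m ((j : ℤ) + 1)) ^ a * (Nb m j + x * Nb m ((j : ℤ) - 1)) ^ b := by
  have hN := Nb_pos' m j
  set N := Nb m j with hNd
  set l : ℝ := (m.choose j : ℝ) / N with hl
  have hl0 : 0 ≤ l := by positivity
  have hl1 : l ≤ 1 := by
    rw [hl, div_le_one hN]
    exact choose_le_Nb m j
  set u : ℝ := x / (1 + x) with hu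
  have h1x : 0 < 1 + x := by linarith
  have hu0 : 0 < u := by positivity
  have hu1 : u < 1 := by
    rw [hu, div_lt_one h1x]
    linarith
  have hmj : (0 : ℝ) ≤ (m : ℝ) - j := by
    have : (j : ℝ) ≤ m := by exact_mod_cast hj
    linarith
  have hm1 : (0 : ℝ) < (m : ℝ) + 1 := by positivity
  have haR : (0 : ℝ) < a := by exact_mod_cast ha
  have habR : (a : ℝ) ≤ b := by exact_mod_cast hab
  set s : ℝ := ((j : ℝ) + 1) / (m + 1) with hs
  have hs0 : 0 < s := by positivity
  set s' : ℝ := s + (1 - s) * (u * l) with hs'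
  have hsm : (m + 1) * s = j + 1 := by rw [hs]; field_simp
  have hsm2 : ((m : ℝ) + 1) * (1 - s) = m - j := by linarith
  have h1s : 0 ≤ 1 - s := by
    by_contra hcon
    push Not at hcon
    have : ((m : ℝ) + 1) * (1 - s) < 0 := mul_neg_of_pos_of_neg hm1 hcon
    linarith
  have hul : u * l < 1 := by nlinarith
  have hul0 : 0 ≤ u * l := by positivity
  have hss : s ≤ s' := by
    rw [hs']
    have : 0 ≤ (1 - s) * (u * l) := mul_nonneg h1s hul0
    linarith
  have hlin : ((a : ℝ) + b) * (s + s') ≤ 2 * a := by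
    have e : ((m : ℝ) + 1) * (((a : ℝ) + b) * (s + s')) =
        ((a : ℝ) + b) * (2 * (j + 1) + u * ((m - j) * l)) := by
      rw [hs']
      calc ((m : ℝ) + 1) * (((a : ℝ) + b) * (s + (s + (1 - s) * (u * l)))) =
          ((a : ℝ) + b) * (2 * ((m + 1) * s) + u * ((((m : ℝ) + 1) * (1 - s)) * l)) := by ring
        _ = _ := by rw [hsm, hsm2]
    have e2 : ((m : ℝ) + 1) * (((a : ℝ) + b) * (s + s')) ≤ (m + 1) * (2 * a) := by
      rw [e]
      linarith
    exact le_of_mul_le_mul_left e2 hm1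
  have hs1 : s < 1 := by
    by_contra hcon
    push Not at hcon
    have : ((a : ℝ) + b) * 2 ≤ (a + b) * (s + s') :=
      mul_le_mul_of_nonneg_left (by linarith) (by linarith)
    nlinarith
  have h1s0 : 0 < 1 - s := by linarith
  have hs'1 : s' < 1 := by
    rw [hs']
    nlinarith
  have key := skew ha hab hs0 hss hs'1 hlin
  have f1 : s' = s * (1 + u * ((m.choose (j + 1) : ℝ) / N)) := by
    have hr := choose_rec m j hj
    rw [hs']
    have e : s * ((m.choose (j + 1) : ℝ)) = (1 - s) * (m.choose j : ℝ) := by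
      have : ((m : ℝ) + 1) * (s * ((m.choose (j + 1) : ℝ))) =
          (m + 1) * ((1 - s) * (m.choose j : ℝ)) := by
        calc ((m : ℝ) + 1) * (s * ((m.choose (j + 1) : ℝ))) =
            ((m + 1) * s) * (m.choose (j + 1) : ℝ) := by ring
          _ = ((m : ℝ) + 1) * (1 - s) * (m.choose j : ℝ) := by rw [hsm, hsm2]; exact hr
          _ = _ := by ring
      exact mul_left_cancel₀ hm1.ne' this
    rw [hl]
    calc s + (1 - s) * (u * ((m.choose j : ℝ) / N)) =
        s + u * ((1 - s) * (m.choose j : ℝ)) / N := by ring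
      _ = s + u * (s * (m.choose (j + 1) : ℝ)) / N := by rw [e]
      _ = _ := by ring
  have f2 : 1 - s' = (1 - s) * (1 - u * l) := by rw [hs']; ring
  rw [f2, f1, mul_pow, mul_pow] at key
  have key2 : 1 ≤ (1 + u * ((m.choose (j + 1) : ℝ) / N)) ^ a * (1 - u * l) ^ b := by
    have hp : 0 < s ^ a * (1 - s) ^ b := by positivity
    have : (s ^ a * (1 - s) ^ b) * 1 ≤ (s ^ a * (1 - s) ^ b) *
        ((1 + u * ((m.choose (j + 1) : ℝ) / N)) ^ a * (1 - u * l) ^ b) := by
      linarith
    exact le_of_mul_le_mul_left this hp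
  have g1 : N + x * Nb m ((j : ℤ) + 1) =
      ((1 + x) * N) * (1 + u * ((m.choose (j + 1) : ℝ) / N)) := by
    rw [Nb_succ', hu, ← hNd]
    field_simp
    ring
  have g2 : N + x * Nb m ((j : ℤ) - 1) = ((1 + x) * N) * (1 - u * l) := by
    rw [Nb_pred', hu, hl, ← hNd]
    field_simp
    ring
  rw [g1, g2]
  set P : ℝ := (1 + x) * N with hPd
  have hP : 0 < P := by positivity
  rw [mul_pow P, mul_pow P]
  calc P ^ (a + b) = (P ^ (a + b)) * 1 := by ring
    _ ≤ (P ^ (a + b)) *
        ((1 + u * ((m.choose (j + 1) : ℝ) / N)) ^ a * (1 - u * l) ^ b) :=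
      mul_le_mul_of_nonneg_left key2 (by positivity)
    _ = _ := by rw [pow_add]; ring

end Pool.Agent.H90.EF
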