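import Pool.Agent.H90.EF.Peel

set_option autoImplicit false

open Finset

namespace Pool.Agent.H90.EF

/-- the convexity condition on three consecutive values (linear in `N`) -/
def HH (k : ℕ) (x : ℝ) (N : ℤ → ℝ) : Prop :=
  ∀ s : ℝ, 1 ≤ s → ∀ j : ℤ, k * s ^ (k - 1) * ((1 + x) * N j) -
    (k - 1) * s ^ k * (N j + x * N (j - 1)) ≤ N j + x * N (j + 1)

theorem HH.tt {k : ℕ} {x : ℝ} {N : ℤ → ℝ} (h : HH k x N) : HH k x (TT N) := by
  intro s hs j
  have h1 := h s hs j
  have h2 := h s hs (j - 1)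
  have e1 : j - 1 + 1 = j := by ring
  have e2 : j + 1 - 1 = j := by ring
  rw [e1] at h2
  unfold TT
  rw [e2]
  linarith

theorem bern {k : ℕ} (hk : 1 ≤ k) {s : ℝ} (hs : 1 ≤ s) :
    k * s ^ (k - 1) - (k - 1) * s ^ k ≤ 1 := by
  have hs0 : 0 < s := by linarith
  have h1 := one_add_mul_le_pow (a := 1 / s - 1) (by
    have : 0 < 1 / s := by positivity
    linarith) k
  have e1 : 1 + (1 / s - 1) = 1 / s := by ring
  rw [e1, div_pow, one_pow] at h1
  have h2 := mul_le_mul_of_nonneg_right h1 (pow_nonneg hs0.le k)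
  rw [div_mul_cancel₀ _ (pow_ne_zero k hs0.ne')] at h2
  obtain ⟨m, rfl⟩ : ∃ m, k = m + 1 := ⟨k - 1, by omega⟩
  rw [Nat.add_sub_cancel]
  have e2 : (1 + ((m + 1 : ℕ) : ℝ) * (1 / s - 1)) * s ^ (m + 1) =
      ((m + 1 : ℕ) : ℝ) * s ^ m - (((m + 1 : ℕ) : ℝ) - 1) * s ^ (m + 1) := by
    rw [pow_succ]
    field_simp
    ring
  rw [e2] at h2
  exact h2

/-- second phase for one family -/
theorem phase_two {k : ℕ} (hk : 1 ≤ k) {x : ℝ} (hx : 0 < x) {N : ℤ → ℝ} (hN : ∀ p, 0 ≤ N p)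
    (hmono : Monotone N) (hH : HH k x N) {σ : Type*} (A : Finset σ) (p : σ → ℤ) {V : ℝ}
    (hV : 0 < V) (hM : (1 + x) * ∑ S ∈ A, N (p S) ≤ x * V) :
    0 < V - ∑ S ∈ A, (N (p S) - N (p S - 1)) ∧
    V ^ k ≤ (V + ∑ S ∈ A, (N (p S + 1) - N (p S))) *
      (V - ∑ S ∈ A, (N (p S) - N (p S - 1))) ^ (k - 1) := by
  set M := ∑ S ∈ A, N (p S) with hMd
  set D := ∑ S ∈ A, (N (p S + 1) - N (p S)) with hDd
  set L := ∑ S ∈ A, (N (p S) - N (p S - 1)) with hLd
  have hL0 : 0 ≤ L := sum_nonneg (fun S _ => sub_nonneg.mpr (hmono (by omega)))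
  have hLM : L ≤ M := sum_le_sum (fun S _ => by linarith [hN (p S - 1)])
  have hVL : 0 < V - L := by
    have h1 : (1 + x) * L ≤ x * V := le_trans (mul_le_mul_of_nonneg_left hLM (by linarith)) hM
    have h2 : (1 + x) * (V - L) ≥ V := by linarith
    by_contra hcon
    push Not at hcon
    have : (1 + x) * (V - L) ≤ 0 := mul_nonpos_of_nonneg_of_nonpos (by linarith) hcon
    linarith
  refine ⟨hVL, ?_⟩
  set s := V / (V - L) with hs
  have hs1 : 1 ≤ s := by
    rw [hs, le_div_iff₀ hVL]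
    linarith
  have hsV : s * (V - L) = V := by
    rw [hs]; field_simp
  have hsum : ∑ S ∈ A, (k * s ^ (k - 1) * ((1 + x) * N (p S)) -
      (k - 1) * s ^ k * (N (p S) + x * N (p S - 1))) ≤ ∑ S ∈ A, (N (p S) + x * N (p S + 1)) :=
    sum_le_sum (fun S _ => hH s hs1 (p S))
  have e1 : ∑ S ∈ A, (k * s ^ (k - 1) * ((1 + x) * N (p S)) -
      (k - 1) * s ^ k * (N (p S) + x * N (p S - 1))) =
      k * s ^ (k - 1) * ((1 + x) * M) - (k - 1) * s ^ k * ((1 + x) * M - x * L) := by
    rw [sum_sub_distrib, ← mul_sum, ← mul_sum, ← mul_sum, sum_add_distrib, ← mul_sum, ← hMd]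
    have : ∑ S ∈ A, N (p S - 1) = M - L := by rw [hMd, hLd, sum_sub_distrib]; ring
    rw [this]; ring
  have e2 : ∑ S ∈ A, (N (p S) + x * N (p S + 1)) = (1 + x) * M + x * D := by
    rw [sum_add_distrib, ← mul_sum]
    have : ∑ S ∈ A, N (p S + 1) = M + D := by rw [hMd, hDd, sum_sub_distrib]; ring
    rw [this]; ring
  rw [e1, e2] at hsum
  have hb := mul_le_mul_of_nonneg_left (bern hk hs1) (show 0 ≤ x * V - (1 + x) * M by linarith)
  obtain ⟨m, rfl⟩ : ∃ m, k = m + 1 := ⟨k - 1, by omega⟩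
  rw [Nat.add_sub_cancel] at hsum hb ⊢
  have hkey : x * (V * s ^ m) ≤ x * (V + D) := by
    have h3 : s ^ (m + 1) * (V - L) = s ^ m * V := by rw [pow_succ, mul_assoc, hsV]
    push_cast at hsum hb
    have h4 : ((m : ℝ) + 1) * s ^ m * (x * V) - ((m : ℝ) + 1 - 1) * s ^ (m + 1) * (x * (V - L))
        ≤ x * (V + D) := by nlinarith
    have h5 : ((m : ℝ) + 1 - 1) * s ^ (m + 1) * (x * (V - L)) = (m : ℝ) * x * (s ^ m * V) := by
      rw [← h3]; ring
    rw [h5] at h4
    linarith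
  have hkey2 : V * s ^ m ≤ V + D := le_of_mul_le_mul_left hkey hx
  calc V ^ (m + 1) = V * s ^ m * (V - L) ^ m := by
        rw [mul_assoc, ← mul_pow, hsV]; ring
    _ ≤ (V + D) * (V - L) ^ m := mul_le_mul_of_nonneg_right hkey2 (pow_nonneg hVL.le _)

/-- choosing the leader -/
theorem leader {ι : Type*} [Fintype ι] [DecidableEq ι] [Nonempty ι] {V D L : ι → ℝ}
    (hV : ∀ l, 0 < V l) (hL : ∀ l, 0 < V l - L l)
    (h : ∀ l, V l ^ (Fintype.card ι) ≤ (V l + D l) * (V l - L l) ^ (Fintype.card ι - 1)) :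
    ∃ l0, ∏ l, V l ≤ (V l0 + D l0) * ∏ l ∈ univ.erase l0, (V l - L l) := by
  classical
  by_contra hcon
  push Not at hcon
  have hD : ∀ l, 0 < V l + D l := by
    intro l
    by_contra hc
    push Not at hc
    have h1 := h l
    have h2 : 0 < V l ^ (Fintype.card ι) := pow_pos (hV l) _
    have h3 := mul_nonpos_of_nonpos_of_nonneg hc (pow_nonneg (hL l).le (Fintype.card ι - 1))
    linarith
  set Q := ∏ l, (V l - L l) with hQ
  have hQ0 : 0 < Q := prod_pos (fun l _ => hL l)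
  have e1 : ∀ l0, (V l0 + D l0) * ∏ l ∈ univ.erase l0, (V l - L l) =
      (V l0 + D l0) / (V l0 - L l0) * Q := by
    intro l0
    rw [hQ, ← mul_prod_erase univ _ (mem_univ l0)]
    have := (hL l0).ne'
    field_simp
  have h1 : ∏ l0, ((V l0 + D l0) * ∏ l ∈ univ.erase l0, (V l - L l)) <
      ∏ _l0 : ι, ∏ l, V l := by
    refine prod_lt_prod_of_nonempty (fun l0 _ => ?_) (fun l0 _ => hcon l0) univ_nonempty
    exact mul_pos (hD l0) (prod_pos (fun l _ => hL l))
  have h2 : ∏ l0, ((V l0 + D l0) * ∏ l ∈ univ.erase l0, (V l - L l)) =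
      ∏ l, ((V l + D l) * (V l - L l) ^ (Fintype.card ι - 1)) := by
    rw [prod_congr rfl (fun l0 _ => e1 l0), prod_mul_distrib, prod_const, prod_mul_distrib,
      prod_pow, ← hQ, prod_div_distrib, ← hQ, card_univ]
    obtain ⟨m, hm⟩ : ∃ m, Fintype.card ι = m + 1 :=
      ⟨Fintype.card ι - 1, by have := Fintype.card_pos (α := ι); omega⟩
    rw [hm, Nat.add_sub_cancel, pow_succ]
    field_simp
  have h3 : ∏ l, V l ^ (Fintype.card ι) ≤
      ∏ l, ((V l + D l) * (V l - L l) ^ (Fintype.card ι - 1)) :=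
    prod_le_prod (fun l _ => pow_nonneg (hV l).le _) (fun l _ => h l)
  rw [h2, prod_const, card_univ] at h1
  rw [prod_pow] at h3
  linarith

section Step

variable {ι : Type*} [Fintype ι] [DecidableEq ι]

/-- total weight of the maxima -/
noncomputable def uu (W : ℕ) (N : ℤ → ℝ) (J : Finset ℕ → ℤ) : ℝ :=
  ∑ S ∈ (range W).powerset, N (pk W J S)

/-- total weight after lowering -/
noncomputable def ww (W : ℕ) (N : ℤ → ℝ) (J : Finset ℕ → ℤ) : ℝ :=
  ∑ S ∈ (range W).powerset, N (low W J S)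

/-- the points of the first kind -/
def AA (W : ℕ) (J : Finset ℕ → ℤ) : Finset (Finset ℕ) :=
  (range W).powerset.filter (fun S => J S ≤ J (insert W S) ∧ 0 ≤ pk W J S)

variable {W : ℕ} {N : ℤ → ℝ} {J : Finset ℕ → ℤ}

theorem EN_le (hmono : Monotone N) : EN (W + 1) N J ≤ uu W N J + ww W N J := by
  rw [EN_succ, uu, ww, ← sum_add_distrib]
  refine sum_le_sum (fun S _ => ?_)
  unfold low
  by_cases h : J S ≤ J (insert W S)
  · rw [if_pos h]
    exact add_le_add (hmono (le_max_left _ _)) (hmono (le_max_right _ _))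
  · rw [if_neg h]
    have h1 : pk W J S = J S := by unfold pk; exact max_eq_left (by omega)
    rw [h1]
    exact add_le_add le_rfl (hmono (by omega))

theorem ww_le (hmono : Monotone N) : ww W N J ≤ uu W N J := by
  refine sum_le_sum (fun S _ => hmono ?_)
  unfold low
  split_ifs <;> omega

theorem sum_AA_le (hN : ∀ p, 0 ≤ N p) : ∑ S ∈ AA W J, N (pk W J S) ≤ ww W N J := by
  unfold ww AA
  rw [sum_filter]
  refine sum_le_sum (fun S _ => ?_)
  split_ifs with h
  · unfold low; rw [if_pos h.1]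
  · exact hN _

theorem EN_ris (hneg : ∀ p < 0, N p = 0) (κ : ℤ) :
    EN W (TT N) (ris W κ J) = uu W N J + ww W N J + ∑ S ∈ AA W J,
      (if κ ≤ pk W J S then N (pk W J S + 1) - N (pk W J S)
        else -(N (pk W J S) - N (pk W J S - 1))) := by
  unfold EN uu ww AA
  rw [sum_filter, ← sum_add_distrib, ← sum_add_distrib]
  refine sum_congr rfl (fun S _ => ?_)
  unfold TT ris low
  by_cases h1 : J S ≤ J (insert W S)
  · by_cases h2 : 0 ≤ pk W J S
    · by_cases h3 : κ ≤ pk W J S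
      · simp only [h1, h2, h3, and_self, if_true]
        have : pk W J S + 1 - 1 = pk W J S := by ring
        rw [this]; ring
      · simp only [h1, h2, h3, and_false, and_true, if_true, if_false]
        ring
    · simp only [h1, h2, false_and, and_false, if_false, if_true]
      rw [hneg _ (by omega), hneg _ (by omega)]
      ring
  · simp only [h1, false_and, if_false]
    ring

/-- One step, with the second phase as a hypothesis. -/
theorem step_core [Nonempty ι] {x : ℝ} (hx0 : 0 < x)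
    (hx : ∀ X : ℝ, x ≤ X → X ≤ 1 → (1 + X) ^ (Fintype.card ι) ≤ 2 ^ (Fintype.card ι) * X)
    {α : ℤ} {K : ℝ} (hN : ∀ p, 0 ≤ N p)
    (hmono : Monotone N) (hK : 0 ≤ K)
    (hlow : Bd ι W α N (K / 2 ^ (Fintype.card ι)))
    (hph2 : ∀ J : ι → Finset ℕ → ℤ, Ok (W + 1) α J → (∀ l, 0 < uu W N (J l) + ww W N (J l)) →
      (∀ l, (1 + x) * ∑ S ∈ AA W (J l), N (pk W (J l) S) ≤ x * (uu W N (J l) + ww W N (J l))) →
      ∏ l, (uu W N (J l) + ww W N (J l)) ≤ K) : Bd ι (W + 1) α N K := by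
  classical
  intro J hJ
  have hk1 : 1 ≤ Fintype.card ι := Fintype.card_pos
  have hEN0 : ∀ l, 0 ≤ EN (W + 1) N (J l) := fun l => sum_nonneg (fun S _ => hN _)
  have hu0 : ∀ l, 0 ≤ uu W N (J l) := fun l => sum_nonneg (fun S _ => hN _)
  have hw0 : ∀ l, 0 ≤ ww W N (J l) := fun l => sum_nonneg (fun S _ => hN _)
  have hwu : ∀ l, ww W N (J l) ≤ uu W N (J l) := fun l => ww_le hmono
  -- a vanishing factor
  by_cases hz : ∃ l, uu W N (J l) = 0
  · obtain ⟨l, hl⟩ := hz
    have h1 : EN (W + 1) N (J l) ≤ 0 := by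
      have h2 := EN_le (W := W) (J := J l) hmono
      have := hwu l
      rw [hl] at h2 this
      linarith
    have h2 : EN (W + 1) N (J l) = 0 := le_antisymm h1 (hEN0 l)
    rw [prod_eq_zero (mem_univ l) h2]
    exact hK
  push Not at hz
  have hu : ∀ l, 0 < uu W N (J l) := fun l => lt_of_le_of_ne (hu0 l) (Ne.symm (hz l))
  have hV : ∀ l, 0 < uu W N (J l) + ww W N (J l) := fun l => by linarith [hu l, hw0 l]
  refine le_trans (prod_le_prod (fun l _ => hEN0 l) (fun l _ => EN_le hmono)) ?_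
  by_cases hph : ∃ l, x * uu W N (J l) ≤ ww W N (J l)
  · -- first phase
    obtain ⟨l0, -, hl0⟩ := exists_max_image univ (fun l => ww W N (J l) / uu W N (J l))
      univ_nonempty
    set X := ww W N (J l0) / uu W N (J l0) with hX
    have hxX : x ≤ X := by
      obtain ⟨l, hl⟩ := hph
      exact le_trans ((le_div_iff₀ (hu l)).mpr hl) (hl0 l (mem_univ _))
    have hX1 : X ≤ 1 := (div_le_one (hu l0)).mpr (hwu l0)
    have h1 : ∏ l, (uu W N (J l) + ww W N (J l)) ≤ ∏ l, (uu W N (J l) * (1 + X)) := by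
      refine prod_le_prod (fun l _ => (hV l).le) (fun l _ => ?_)
      have h2 := (div_le_iff₀ (hu l)).mp (hl0 l (mem_univ _))
      linarith
    rw [prod_mul_distrib, prod_const, card_univ] at h1
    have h3 : (∏ l, uu W N (J l)) * X = ww W N (J l0) * ∏ l ∈ univ.erase l0, uu W N (J l) := by
      rw [← mul_prod_erase univ _ (mem_univ l0), hX]
      have := (hu l0).ne'
      field_simp
    have h4 := hlow _ (ok_low hJ l0)
    have h5 : ∏ l, EN W N ((fun l => if l = l0 then low W (J l) else pk W (J l)) l) =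
        ww W N (J l0) * ∏ l ∈ univ.erase l0, uu W N (J l) := by
      rw [← mul_prod_erase univ _ (mem_univ l0)]
      congr 1
      · simp only [if_true]; rfl
      · refine prod_congr rfl (fun l hl => ?_)
        simp only [ne_of_mem_erase hl, if_false]; rfl
    rw [h5, ← h3, le_div_iff₀ (by positivity)] at h4
    have hP : 0 ≤ ∏ l, uu W N (J l) := prod_nonneg (fun l _ => hu0 l)
    calc ∏ l, (uu W N (J l) + ww W N (J l))
        ≤ (∏ l, uu W N (J l)) * (1 + X) ^ (Fintype.card ι) := h1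
      _ ≤ (∏ l, uu W N (J l)) * (2 ^ (Fintype.card ι) * X) :=
          mul_le_mul_of_nonneg_left (hx X hxX hX1) hP
      _ = (∏ l, uu W N (J l)) * X * 2 ^ (Fintype.card ι) := by ring
      _ ≤ K := h4
  · -- second phase
    push Not at hph
    refine hph2 J hJ hV (fun l => ?_)
    have h1 := sum_AA_le (W := W) (J := J l) hN
    have h2 := hph l
    nlinarith

/-- **One step.** -/
theorem step_A [Nonempty ι] {x : ℝ} (hx0 : 0 < x)
    (hx : ∀ X : ℝ, x ≤ X → X ≤ 1 → (1 + X) ^ (Fintype.card ι) ≤ 2 ^ (Fintype.card ι) * X)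
    {α : ℤ} {K : ℝ} (hN : ∀ p, 0 ≤ N p) (hneg : ∀ p < 0, N p = 0)
    (hmono : Monotone N) (hα : -1 ≤ α) (hK : 0 ≤ K)
    (hH : HH (Fintype.card ι) x N)
    (hlow : Bd ι W α N (K / 2 ^ (Fintype.card ι)))
    (hup : Bd ι W (α + 1) (TT N) K) : Bd ι (W + 1) α N K := by
  classical
  refine step_core hx0 hx hN hmono hK hlow (fun J hJ hV hM => ?_)
  have hk1 : 1 ≤ Fintype.card ι := Fintype.card_pos
  have hp2 := fun l => phase_two hk1 hx0 hN hmono hH (AA W (J l)) (pk W (J l)) (hV l) (hM l)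
  obtain ⟨l0, hl0⟩ := leader (V := fun l => uu W N (J l) + ww W N (J l)) hV
    (fun l => (hp2 l).1) (fun l => (hp2 l).2)
  refine hl0.trans ?_
  have h4 := hup _ (ok_ris hJ (κ := fun l => if l = l0 then 0 else α + 1) (by
    intro i j hij
    by_cases hi : i = l0
    · subst hi
      simp [hij.symm]
    · by_cases hj : j = l0
      · subst hj; simp [hij]
      · simp only [hi, hj, if_false]; omega))
  refine le_trans ?_ h4
  rw [← mul_prod_erase univ (fun l => EN W (TT N) (ris W (if l = l0 then 0 else α + 1) (J l)))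
    (mem_univ l0)]
  refine mul_le_mul ?_ ?_ (prod_nonneg (fun l _ => (hp2 l).1.le)) ?_
  · rw [if_pos rfl, EN_ris hneg]
    refine add_le_add le_rfl (sum_le_sum (fun S hS => ?_))
    rw [AA, mem_filter] at hS
    rw [if_pos hS.2.2]
  · refine prod_le_prod (fun l _ => (hp2 l).1.le) (fun l hl => ?_)
    rw [if_neg (ne_of_mem_erase hl), EN_ris hneg, sub_eq_add_neg, ← sum_neg_distrib]
    refine add_le_add le_rfl (sum_le_sum (fun S _ => ?_))
    split_ifs
    · have h6 : N (pk W (J l) S) ≤ N (pk W (J l) S + 1) := hmono (by omega)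
      have h7 : N (pk W (J l) S - 1) ≤ N (pk W (J l) S) := hmono (by omega)
      linarith
    · exact le_rfl
  · exact sum_nonneg (fun S _ => add_nonneg (hN _) (hN _))

end Step

end Pool.Agent.H90.EF
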