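import Pool.Agent.H90.EF.Step

set_option autoImplicit false

open Finset

namespace Pool.Agent.H90.EF

variable {ι : Type*} [Fintype ι] [DecidableEq ι]

theorem TT_nonneg {N : ℤ → ℝ} (h : ∀ p, 0 ≤ N p) : ∀ p, 0 ≤ TT N p :=
  fun p => add_nonneg (h _) (h _)

theorem TT_neg {N : ℤ → ℝ} (h : ∀ p < 0, N p = 0) : ∀ p < 0, TT N p = 0 := by
  intro p hp
  unfold TT
  rw [h p hp, h (p - 1) (by omega), add_zero]

theorem TT_mono {N : ℤ → ℝ} (h : Monotone N) : Monotone (TT N) :=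
  fun a b hab => add_le_add (h hab) (h (by omega))

theorem EN_zero (N : ℤ → ℝ) (J : Finset ℕ → ℤ) : EN 0 N J = N (J ∅) := by
  unfold EN
  simp

theorem Bd_zero {α : ℤ} {N : ℤ → ℝ} {K : ℝ} (hneg : ∀ p < 0, N p = 0) (hK : 0 ≤ K)
    (h : ∀ j : ι → ℤ, ∑ l, j l ≤ α → ∏ l, N (j l) ≤ K) : Bd ι 0 α N K := by
  intro J hJ
  simp only [EN_zero]
  by_cases hz : ∃ l, J l ∅ < 0
  · obtain ⟨l, hl⟩ := hz
    rw [prod_eq_zero (mem_univ l) (hneg _ hl)]
    exact hK
  push Not at hz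
  have h1 := hJ (fun _ => ∅) (fun _ => empty_subset _) hz
  rw [cc_zero, add_zero] at h1
  exact h _ h1

/-- the functional `P_W(α; N)` is at most `K` -/
def PW (ι : Type*) [Fintype ι] (W : ℕ) (α : ℤ) (N : ℤ → ℝ) (K : ℝ) : Prop :=
  ∀ y ≤ W, ∀ j : ι → ℤ, ∑ l, j l ≤ α + y →
    2 ^ (Fintype.card ι * (W - y)) * ∏ l, (TT^[y] N) (j l) ≤ K

/-- **Theorem A''.** -/
theorem thm_A [Nonempty ι] {x : ℝ} (hx0 : 0 < x)
    (hx : ∀ X : ℝ, x ≤ X → X ≤ 1 → (1 + X) ^ (Fintype.card ι) ≤ 2 ^ (Fintype.card ι) * X) :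
    ∀ (W : ℕ) (α : ℤ) (N : ℤ → ℝ) (K : ℝ), (∀ p, 0 ≤ N p) → (∀ p < 0, N p = 0) →
    Monotone N → -1 ≤ α → 0 ≤ K → HH (Fintype.card ι) x N → PW ι W α N K → Bd ι W α N K := by
  intro W
  induction W with
  | zero =>
    intro α N K hN hneg hmono hα hK hH hP
    refine Bd_zero hneg hK (fun j hj => ?_)
    have := hP 0 le_rfl j (by simpa using hj)
    simpa using this
  | succ W ih =>
    intro α N K hN hneg hmono hα hK hH hP
    refine step_A hx0 hx hN hneg hmono hα hK hH ?_ ?_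
    · refine ih α N _ hN hneg hmono hα (by positivity) hH (fun y hy j hj => ?_)
      rw [le_div_iff₀ (by positivity)]
      have := hP y (by omega) j hj
      refine le_trans (le_of_eq ?_) this
      have e : Fintype.card ι * (W + 1 - y) = Fintype.card ι * (W - y) + Fintype.card ι := by
        rw [show W + 1 - y = (W - y) + 1 by omega, mul_add, mul_one]
      rw [e, pow_add]
      ring
    · refine ih (α + 1) (TT N) K (TT_nonneg hN) (TT_neg hneg) (TT_mono hmono) (by omega) hK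
        hH.tt (fun y hy j hj => ?_)
      have := hP (y + 1) (by omega) j (by push_cast; linarith)
      rw [Function.iterate_succ_apply, show W + 1 - (y + 1) = W - y by omega] at this
      exact this

theorem Bd.mono_fun {W : ℕ} {α : ℤ} {N N' : ℤ → ℝ} {K : ℝ} (h : Bd ι W α N' K)
    (hN : ∀ p, 0 ≤ N p) (hle : ∀ p, N p ≤ N' p) : Bd ι W α N K :=
  fun J hJ => le_trans (prod_le_prod (fun _ _ => sum_nonneg (fun _ _ => hN _))
    (fun _ _ => sum_le_sum (fun _ _ => hle _))) (h J hJ)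

theorem Bd.mono_const {W : ℕ} {α : ℤ} {N : ℤ → ℝ} {K K' : ℝ} (h : Bd ι W α N K) (hK : K ≤ K') :
    Bd ι W α N K' := fun J hJ => (h J hJ).trans hK

/-- the pointwise form of the convexity condition implies the linear form -/
theorem HH_of_pow {k : ℕ} (hk : 1 ≤ k) {x : ℝ} (hx : 0 < x) {N : ℤ → ℝ} (hN : ∀ p, 0 ≤ N p)
    (hneg : ∀ p < 0, N p = 0) (hpos : ∀ p, 0 ≤ p → 0 < N p)
    (h : ∀ j, 0 ≤ j → ((1 + x) * N j) ^ k ≤ (N j + x * N (j + 1)) * (N j + x * N (j - 1)) ^ (k - 1)) :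
    HH k x N := by
  intro s hs j
  have hs0 : 0 < s := by linarith
  rcases lt_or_ge j 0 with hj | hj
  · rw [hneg j hj, hneg (j - 1) (by omega)]
    have := mul_nonneg hx.le (hN (j + 1))
    simpa using this
  have hB : 0 < N j + x * N (j - 1) := by
    have := hpos j hj
    have := mul_nonneg hx.le (hN (j - 1))
    linarith
  have h1 := h j hj
  -- Bernoulli for `z = (1 + x) N j / (s B)`
  set B := N j + x * N (j - 1) with hBd
  set Y := (1 + x) * N j with hY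
  have hY0 : 0 ≤ Y := mul_nonneg (by linarith) (hN j)
  have hz : (0 : ℝ) ≤ Y / (s * B) := by positivity
  have h2 := one_add_mul_le_pow (a := Y / (s * B) - 1) (by linarith) k
  have e1 : 1 + (Y / (s * B) - 1) = Y / (s * B) := by ring
  rw [e1, div_pow] at h2
  have h3 := mul_le_mul_of_nonneg_right h2 (show 0 ≤ s ^ k * B by positivity)
  obtain ⟨m, rfl⟩ : ∃ m, k = m + 1 := ⟨k - 1, by omega⟩
  rw [Nat.add_sub_cancel] at h1 ⊢
  have e2 : Y ^ (m + 1) / (s * B) ^ (m + 1) * (s ^ (m + 1) * B) = Y ^ (m + 1) / B ^ m := by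
    rw [mul_pow]
    field_simp
    ring
  have e3 : (1 + ((m + 1 : ℕ) : ℝ) * (Y / (s * B) - 1)) * (s ^ (m + 1) * B) =
      ((m + 1 : ℕ) : ℝ) * s ^ m * Y - (((m + 1 : ℕ) : ℝ) - 1) * s ^ (m + 1) * B := by
    field_simp
    ring
  rw [e2, e3] at h3
  have h4 : Y ^ (m + 1) / B ^ m ≤ N j + x * N (j + 1) := by
    rw [div_le_iff₀ (by positivity)]
    exact h1
  linarith

end Pool.Agent.H90.EF
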